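import Pool.Agent.Lib.GapSieve.Mertens4

/-!
# Limit forms of the Mertens theorems for primes congruent to 1 modulo 4
-/

open Finset Filter Topology

namespace Pool.Agent.MP484c84AP

open Pool.Agent.GapSieve (T4 T4_bound loglog_step)

/-- two-sided Mertens theorem with error `O(1 / log M)` -/
theorem sum_two_div : ∃ C : ℝ, 0 ≤ C ∧ ∀ M K : ℕ, 2 ≤ M → M ≤ K →
    |∑ p ∈ Ioc M K with p.Prime ∧ p % 4 = 1, 2 / (p : ℝ) -
      (Real.log (Real.log K) - Real.log (Real.log M))| ≤ C / Real.log M := by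
  obtain ⟨C, hC0, hC⟩ := T4_bound
  refine ⟨2 * C + 1, by positivity, fun M K hM hMK => ?_⟩
  set d : ℕ → ℝ := fun n => T4 n - Real.log n with hd
  have hM' : (2 : ℝ) ≤ M := by exact_mod_cast hM
  have hlM : 0 < Real.log M := Real.log_pos (by linarith)
  have key : ∑ p ∈ Ioc M K with p.Prime ∧ p % 4 = 1, 2 / (p : ℝ) ≤
        Real.log (Real.log K) - Real.log (Real.log M) + (d K - C) / Real.log K +
          2 * C / Real.log M ∧
      Real.log (Real.log K) - Real.log (Real.log M) - (1 / Real.log M - 1 / Real.log K) +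
        (d K + C) / Real.log K - 2 * C / Real.log M ≤
      ∑ p ∈ Ioc M K with p.Prime ∧ p % 4 = 1, 2 / (p : ℝ) := by
    induction K, hMK using Nat.le_induction with
    | base =>
      have h1 : ∑ p ∈ Ioc M M with p.Prime ∧ p % 4 = 1, 2 / (p : ℝ) = 0 := by simp
      have h2 := abs_le.1 (hC M (by omega))
      rw [h1]
      constructor
      · rw [sub_self, zero_add, ← add_div]
        refine div_nonneg ?_ hlM.le
        simp only [hd]
        linarith
      · rw [sub_self, sub_self, sub_zero, zero_add, ← sub_div]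
        refine div_nonpos_of_nonpos_of_nonneg ?_ hlM.le
        simp only [hd]
        linarith
    | succ n hn ih =>
      obtain ⟨ihU, ihL⟩ := ih
      have hn' : (2 : ℝ) ≤ n := by exact_mod_cast (hM.trans hn)
      have hln : 0 < Real.log n := Real.log_pos (by linarith)
      have hln1 : 0 < Real.log ((n + 1 : ℕ) : ℝ) := Real.log_pos (by push_cast; linarith)
      have hlle : Real.log n ≤ Real.log ((n + 1 : ℕ) : ℝ) :=
        Real.log_le_log (by linarith) (by push_cast; linarith)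
      have h1 : ∑ p ∈ Ioc M (n + 1) with p.Prime ∧ p % 4 = 1, 2 / (p : ℝ) =
          ∑ p ∈ Ioc M n with p.Prime ∧ p % 4 = 1, 2 / (p : ℝ) +
          (T4 (n + 1) - T4 n) / Real.log ((n + 1 : ℕ) : ℝ) := by
        unfold T4
        rw [sum_filter, sum_filter, sum_filter, sum_filter, sum_Ioc_succ_top (by omega),
          sum_Ioc_succ_top (by omega)]
        split_ifs
        · congr 1
          rw [add_sub_cancel_left]
          field_simp
        · simp
      have h3 : T4 (n + 1) - T4 n = (d (n + 1) - d n) +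
          (Real.log ((n + 1 : ℕ) : ℝ) - Real.log n) := by
        simp only [hd]; ring
      rw [h1, h3]
      have hd2 := abs_le.1 (hC n (by omega))
      -- comparison of the smooth parts
      have hA : (Real.log ((n + 1 : ℕ) : ℝ) - Real.log n) / Real.log ((n + 1 : ℕ) : ℝ) ≤
          Real.log (Real.log ((n + 1 : ℕ) : ℝ)) - Real.log (Real.log n) := by
        have h5 : Real.log (Real.log n / Real.log ((n + 1 : ℕ) : ℝ)) ≤
            Real.log n / Real.log ((n + 1 : ℕ) : ℝ) - 1 :=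
          Real.log_le_sub_one_of_pos (by positivity)
        rw [Real.log_div hln.ne' hln1.ne'] at h5
        have h6 : (Real.log ((n + 1 : ℕ) : ℝ) - Real.log n) / Real.log ((n + 1 : ℕ) : ℝ) =
            1 - Real.log n / Real.log ((n + 1 : ℕ) : ℝ) := by
          field_simp
        rw [h6]
        linarith
      have hB : Real.log (Real.log ((n + 1 : ℕ) : ℝ)) - Real.log (Real.log n) ≤
          (Real.log ((n + 1 : ℕ) : ℝ) - Real.log n) / Real.log n := by
        have h5 : Real.log (Real.log ((n + 1 : ℕ) : ℝ) / Real.log n) ≤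
            Real.log ((n + 1 : ℕ) : ℝ) / Real.log n - 1 :=
          Real.log_le_sub_one_of_pos (by positivity)
        rw [Real.log_div hln1.ne' hln.ne'] at h5
        have h6 : (Real.log ((n + 1 : ℕ) : ℝ) - Real.log n) / Real.log n =
            Real.log ((n + 1 : ℕ) : ℝ) / Real.log n - 1 := by
          field_simp
        rw [h6]
        linarith
      have hE : (Real.log ((n + 1 : ℕ) : ℝ) - Real.log n) / Real.log n -
          (Real.log ((n + 1 : ℕ) : ℝ) - Real.log n) / Real.log ((n + 1 : ℕ) : ℝ) ≤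
          1 / Real.log n - 1 / Real.log ((n + 1 : ℕ) : ℝ) := by
        have h5 : Real.log ((n + 1 : ℕ) : ℝ) - Real.log n ≤ 1 := by
          rw [← Real.log_div (by positivity) (by positivity)]
          refine (Real.log_le_sub_one_of_pos (by positivity)).trans ?_
          rw [sub_le_iff_le_add, div_le_iff₀ (by positivity)]
          push_cast
          linarith
        have h6 : 1 / Real.log ((n + 1 : ℕ) : ℝ) ≤ 1 / Real.log n :=
          one_div_le_one_div_of_le hln hlle
        have h7 : (Real.log ((n + 1 : ℕ) : ℝ) - Real.log n) / Real.log n -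
          (Real.log ((n + 1 : ℕ) : ℝ) - Real.log n) / Real.log ((n + 1 : ℕ) : ℝ) =
          (Real.log ((n + 1 : ℕ) : ℝ) - Real.log n) *
            (1 / Real.log n - 1 / Real.log ((n + 1 : ℕ) : ℝ)) := by ring
        rw [h7]
        nlinarith
      have hsplit : (d (n + 1) - d n + (Real.log ((n + 1 : ℕ) : ℝ) - Real.log n)) /
          Real.log ((n + 1 : ℕ) : ℝ) = d (n + 1) / Real.log ((n + 1 : ℕ) : ℝ) -
          d n / Real.log ((n + 1 : ℕ) : ℝ) + (Real.log ((n + 1 : ℕ) : ℝ) - Real.log n) /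
          Real.log ((n + 1 : ℕ) : ℝ) := by ring
      rw [hsplit]
      constructor
      · have h4 : (d n - C) / Real.log n ≤ (d n - C) / Real.log ((n + 1 : ℕ) : ℝ) := by
          rw [div_le_div_iff₀ hln hln1]
          have : d n - C ≤ 0 := by simp only [hd]; linarith
          nlinarith
        have h6 : (d (n + 1) - C) / Real.log ((n + 1 : ℕ) : ℝ) =
            d (n + 1) / Real.log ((n + 1 : ℕ) : ℝ) - d n / Real.log ((n + 1 : ℕ) : ℝ) +
            (d n - C) / Real.log ((n + 1 : ℕ) : ℝ) := by ring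
        rw [h6]
        linarith
      · have h4 : (d n + C) / Real.log ((n + 1 : ℕ) : ℝ) ≤ (d n + C) / Real.log n :=
          div_le_div_of_nonneg_left (by simp only [hd]; linarith) hln hlle
        have h6 : (d (n + 1) + C) / Real.log ((n + 1 : ℕ) : ℝ) =
            d (n + 1) / Real.log ((n + 1 : ℕ) : ℝ) - d n / Real.log ((n + 1 : ℕ) : ℝ) +
            (d n + C) / Real.log ((n + 1 : ℕ) : ℝ) := by ring
        rw [h6]
        linarith
  have hK' : (2 : ℝ) ≤ K := by exact_mod_cast (hM.trans hMK)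
  have hlK : 0 < Real.log K := Real.log_pos (by linarith)
  have hdK := abs_le.1 (hC K (by omega))
  have h5 : 0 ≤ (d K + C) / Real.log K :=
    div_nonneg (by simp only [hd]; linarith) hlK.le
  have h6 : (d K - C) / Real.log K ≤ 0 :=
    div_nonpos_of_nonpos_of_nonneg (by simp only [hd]; linarith) hlK.le
  have h7 : 0 ≤ 1 / Real.log K := by positivity
  have h8 : (2 * C + 1) / Real.log M = 2 * C / Real.log M + 1 / Real.log M := by ring
  have h9 : 0 ≤ 1 / Real.log M := by positivity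
  rw [abs_le, h8]
  constructor
  · linarith [key.2]
  · linarith [key.1]

/-- sum of `1 / p` over primes `1 mod 4` in `(k, l]` -/
noncomputable def R (k l : ℕ) : ℝ := ∑ p ∈ Ioc k l with p.Prime ∧ p % 4 = 1, 1 / (p : ℝ)

/-- product of `1 - 1 / p` over primes `1 mod 4` up to `k` -/
noncomputable def V (k : ℕ) : ℝ := ∏ p ∈ Ioc 0 k with p.Prime ∧ p % 4 = 1, (1 - 1 / (p : ℝ))

lemma one_sub_pos {p : ℕ} (hp : p.Prime) : 0 < 1 - 1 / (p : ℝ) := by
  have h2 : (2 : ℝ) ≤ p := by exact_mod_cast hp.two_le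
  have : 1 / (p : ℝ) ≤ 1 / 2 := one_div_le_one_div_of_le (by norm_num) h2
  linarith

lemma V_pos (k : ℕ) : 0 < V k :=
  prod_pos fun p hp => one_sub_pos (mem_filter.1 hp).2.1

lemma V_le_one (k : ℕ) : V k ≤ 1 := by
  refine prod_le_one (fun p hp => (one_sub_pos (mem_filter.1 hp).2.1).le) fun p hp => ?_
  have : (0 : ℝ) ≤ 1 / p := by positivity
  linarith

lemma V_split {k l : ℕ} (h : k ≤ l) :
    V l = V k * ∏ p ∈ Ioc k l with p.Prime ∧ p % 4 = 1, (1 - 1 / (p : ℝ)) := by
  unfold V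
  rw [prod_filter, prod_filter, prod_filter, ← Finset.prod_Ioc_consecutive _ (Nat.zero_le k) h]

lemma V_anti {k l : ℕ} (h : k ≤ l) : V l ≤ V k := by
  rw [V_split h]
  refine mul_le_of_le_one_right (V_pos k).le ?_
  refine prod_le_one (fun p hp => (one_sub_pos (mem_filter.1 hp).2.1).le) fun p hp => ?_
  have : (0 : ℝ) ≤ 1 / p := by positivity
  linarith

/-- `log ⌊z⌋ / log z → 1` -/
lemma tendsto_log_floor : Tendsto (fun z : ℝ => Real.log (⌊z⌋₊ : ℝ) / Real.log z) atTop (𝓝 1) := by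
  have h1 : Tendsto (fun z : ℝ => Real.log ((⌊z⌋₊ : ℝ) / z)) atTop (𝓝 (Real.log 1)) :=
    (tendsto_nat_floor_div_atTop (R := ℝ)).log (by norm_num)
  have h2 : Tendsto (fun z : ℝ => Real.log ((⌊z⌋₊ : ℝ) / z) / Real.log z) atTop (𝓝 0) :=
    h1.div_atTop Real.tendsto_log_atTop
  have h3 := h2.const_add 1
  rw [add_zero] at h3
  refine h3.congr' ?_
  filter_upwards [eventually_ge_atTop (2 : ℝ)] with z hz
  have hf : (0 : ℝ) < ⌊z⌋₊ := by
    have : 1 ≤ ⌊z⌋₊ := Nat.le_floor (by push_cast; linarith)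
    exact_mod_cast this
  have hl : 0 < Real.log z := Real.log_pos (by linarith)
  rw [Real.log_div hf.ne' (by linarith)]
  field_simp
  ring

lemma tendsto_rpow {a : ℝ} (ha : 0 < a) : Tendsto (fun z : ℝ => z ^ a) atTop atTop :=
  tendsto_rpow_atTop ha

lemma tendsto_log_floor_pow {a : ℝ} (ha : 0 < a) :
    Tendsto (fun z : ℝ => Real.log (⌊z ^ a⌋₊ : ℝ) / Real.log z) atTop (𝓝 a) := by
  have h1 := (tendsto_log_floor.comp (tendsto_rpow ha)).mul_const a
  rw [one_mul] at h1
  refine h1.congr' ?_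
  filter_upwards [eventually_ge_atTop (2 : ℝ)] with z hz
  have hl : 0 < Real.log z := Real.log_pos (by linarith)
  simp only [Function.comp]
  rw [Real.log_rpow (by linarith)]
  field_simp

/-- `R (z ^ a) z → log (1 / a) / 2` -/
theorem tendsto_R {a : ℝ} (ha : 0 < a) (ha1 : a < 1) :
    Tendsto (fun z : ℝ => R ⌊z ^ a⌋₊ ⌊z⌋₊) atTop (𝓝 (-Real.log a / 2)) := by
  obtain ⟨C, hC0, hC⟩ := sum_two_div
  have hlim1 : Tendsto (fun z : ℝ => Real.log (Real.log (⌊z⌋₊ : ℝ)) -
      Real.log (Real.log (⌊z ^ a⌋₊ : ℝ))) atTop (𝓝 (-Real.log a)) := by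
    have h1 := tendsto_log_floor.log (by norm_num)
    have h2 := (tendsto_log_floor_pow ha).log ha.ne'
    have h3 := h1.sub h2
    rw [Real.log_one, zero_sub] at h3
    refine h3.congr' ?_
    have e1 := (tendsto_rpow ha).eventually (eventually_ge_atTop (2 : ℝ))
    filter_upwards [eventually_ge_atTop (2 : ℝ), e1] with z hz hz2
    have hl : 0 < Real.log z := Real.log_pos (by linarith)
    have hf : (2 : ℝ) ≤ ⌊z⌋₊ := by
      have : 2 ≤ ⌊z⌋₊ := Nat.le_floor (by push_cast; linarith)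
      exact_mod_cast this
    have hf2 : (2 : ℝ) ≤ ⌊z ^ a⌋₊ := by
      have : 2 ≤ ⌊z ^ a⌋₊ := Nat.le_floor (by push_cast; linarith)
      exact_mod_cast this
    have hl1 : 0 < Real.log (⌊z⌋₊ : ℝ) := Real.log_pos (by linarith)
    have hl2 : 0 < Real.log (⌊z ^ a⌋₊ : ℝ) := Real.log_pos (by linarith)
    rw [Real.log_div hl1.ne' hl.ne', Real.log_div hl2.ne' hl.ne']
    ring
  have hlim2 : Tendsto (fun z : ℝ => C / Real.log (⌊z ^ a⌋₊ : ℝ)) atTop (𝓝 0) := by
    have h1 : Tendsto (fun z : ℝ => Real.log (⌊z ^ a⌋₊ : ℝ)) atTop atTop :=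
      Real.tendsto_log_atTop.comp (tendsto_natCast_atTop_atTop.comp
        (tendsto_nat_floor_atTop.comp (tendsto_rpow ha)))
    exact tendsto_const_nhds.div_atTop h1
  have hlim3 : Tendsto (fun z : ℝ => 2 * R ⌊z ^ a⌋₊ ⌊z⌋₊ - (Real.log (Real.log (⌊z⌋₊ : ℝ)) -
      Real.log (Real.log (⌊z ^ a⌋₊ : ℝ)))) atTop (𝓝 0) := by
    refine squeeze_zero_norm' ?_ hlim2
    have e1 := (tendsto_rpow ha).eventually (eventually_ge_atTop (2 : ℝ))
    filter_upwards [eventually_ge_atTop (2 : ℝ), e1] with z hz hz2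
    have h2 : 2 ≤ ⌊z ^ a⌋₊ := Nat.le_floor (by push_cast; linarith)
    have h3 : ⌊z ^ a⌋₊ ≤ ⌊z⌋₊ := by
      refine Nat.floor_le_floor ?_
      calc z ^ a ≤ z ^ (1 : ℝ) := Real.rpow_le_rpow_of_exponent_le (by linarith) ha1.le
        _ = z := Real.rpow_one z
    have h4 := hC _ _ h2 h3
    have h5 : 2 * R ⌊z ^ a⌋₊ ⌊z⌋₊ =
        ∑ p ∈ Ioc ⌊z ^ a⌋₊ ⌊z⌋₊ with p.Prime ∧ p % 4 = 1, 2 / (p : ℝ) := by
      unfold R
      rw [mul_sum]
      refine sum_congr rfl fun p _ => by ring
    rw [Real.norm_eq_abs, h5]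
    exact h4
  have h := (hlim3.add hlim1).div_const 2
  rw [zero_add] at h
  refine h.congr fun z => ?_
  ring

lemma log_ineq {x : ℝ} (h0 : 0 ≤ x) (h1 : x ≤ 1 / 2) :
    x ≤ -Real.log (1 - x) ∧ -Real.log (1 - x) ≤ x + 2 * x ^ 2 := by
  constructor
  · have := Real.log_le_sub_one_of_pos (show 0 < 1 - x by linarith)
    linarith
  · have h2 : Real.log ((1 - x)⁻¹) ≤ (1 - x)⁻¹ - 1 :=
      Real.log_le_sub_one_of_pos (inv_pos.2 (by linarith))
    rw [Real.log_inv] at h2
    refine h2.trans ?_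
    rw [sub_le_iff_le_add, inv_le_iff_one_le_mul₀ (by linarith)]
    nlinarith

/-- `V (z ^ a) / V z → a ^ (-1/2)` -/
theorem tendsto_V {a : ℝ} (ha : 0 < a) (ha1 : a < 1) :
    Tendsto (fun z : ℝ => V ⌊z ^ a⌋₊ / V ⌊z⌋₊) atTop (𝓝 (a ^ (-(1 / 2) : ℝ))) := by
  have hR := tendsto_R ha ha1
  have key : Tendsto (fun z : ℝ => ∑ p ∈ Ioc ⌊z ^ a⌋₊ ⌊z⌋₊ with p.Prime ∧ p % 4 = 1,
      -Real.log (1 - 1 / (p : ℝ))) atTop (𝓝 (-Real.log a / 2)) := by
    have hup : Tendsto (fun z : ℝ => R ⌊z ^ a⌋₊ ⌊z⌋₊ + 2 / (⌊z ^ a⌋₊ : ℝ) *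
        R ⌊z ^ a⌋₊ ⌊z⌋₊) atTop (𝓝 (-Real.log a / 2)) := by
      have h1 : Tendsto (fun z : ℝ => (2 : ℝ) / (⌊z ^ a⌋₊ : ℝ)) atTop (𝓝 0) :=
        tendsto_const_nhds.div_atTop (tendsto_natCast_atTop_atTop.comp
          (tendsto_nat_floor_atTop.comp (tendsto_rpow ha)))
      have h2 := hR.add (h1.mul hR)
      rw [zero_mul, add_zero] at h2
      exact h2
    refine tendsto_of_tendsto_of_tendsto_of_le_of_le' hR hup ?_ ?_
    · refine Eventually.of_forall fun z => ?_
      refine sum_le_sum fun p hp => ?_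
      have hp' := (mem_filter.1 hp).2.1
      have h2 : (2 : ℝ) ≤ p := by exact_mod_cast hp'.two_le
      exact (log_ineq (by positivity) (one_div_le_one_div_of_le (by norm_num) h2)).1
    · have e1 := (tendsto_rpow ha).eventually (eventually_ge_atTop (2 : ℝ))
      filter_upwards [e1] with z hz2
      have hk : (0 : ℝ) < ⌊z ^ a⌋₊ := by
        have : 1 ≤ ⌊z ^ a⌋₊ := Nat.le_floor (by push_cast; linarith)
        exact_mod_cast this
      unfold R
      rw [mul_sum, ← sum_add_distrib]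
      refine sum_le_sum fun p hp => ?_
      have hp' := (mem_filter.1 hp).2.1
      have h2 : (2 : ℝ) ≤ p := by exact_mod_cast hp'.two_le
      have h3 := (log_ineq (x := 1 / (p : ℝ)) (by positivity)
        (one_div_le_one_div_of_le (by norm_num) h2)).2
      refine h3.trans ?_
      have h4 : (⌊z ^ a⌋₊ : ℝ) ≤ p := by
        exact_mod_cast (mem_Ioc.1 (mem_filter.1 hp).1).1.le
      have h5 : 2 * (1 / (p : ℝ)) ^ 2 ≤ 2 / (⌊z ^ a⌋₊ : ℝ) * (1 / p) := by
        have h6 : 2 * (1 / (p : ℝ)) ^ 2 = 2 / (p : ℝ) * (1 / p) := by ring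
        rw [h6]
        refine mul_le_mul_of_nonneg_right ?_ (by positivity)
        exact div_le_div_of_nonneg_left (by norm_num) hk h4
      linarith
  have hexp := (Real.continuous_exp.tendsto _).comp key
  have hval : Real.exp (-Real.log a / 2) = a ^ (-(1 / 2) : ℝ) := by
    rw [Real.rpow_def_of_pos ha]
    congr 1
    ring
  rw [hval] at hexp
  refine hexp.congr' ?_
  filter_upwards [eventually_ge_atTop (2 : ℝ)] with z hz
  have h3 : ⌊z ^ a⌋₊ ≤ ⌊z⌋₊ := by
    refine Nat.floor_le_floor ?_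
    calc z ^ a ≤ z ^ (1 : ℝ) := Real.rpow_le_rpow_of_exponent_le (by linarith) ha1.le
      _ = z := Real.rpow_one z
  simp only [Function.comp]
  rw [Real.exp_sum, V_split h3, div_mul_eq_div_div, div_self (V_pos _).ne', one_div,
    ← prod_inv_distrib]
  refine prod_congr rfl fun p hp => ?_
  rw [Real.exp_neg, Real.exp_log (one_sub_pos (mem_filter.1 hp).2.1)]

end Pool.Agent.MP484c84AP
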