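import Pool.Agent.Lib.MP484c84AP.Osc

/-!
# Arithmetic preliminaries for the matrix argument
-/

open Finset Filter Topology

namespace Pool.Agent.MP484c84AP

/-- number of `1 ≤ n ≤ y`, `n ≡ a (mod q)`, with `n ^ 2 + 1` prime -/
noncomputable def P1 (y : ℝ) (q a : ℕ) : ℕ :=
  ((Ioc 0 ⌊y⌋₊).filter fun n => n ≡ a [MOD q] ∧ (n ^ 2 + 1).Prime).card

/-- number of roots of `x ^ 2 + 1` modulo `p` -/
def rt (p : ℕ) : ℕ := ((range p).filter fun x => p ∣ x ^ 2 + 1).card

/-- the local densities at the primes dividing the modulus -/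
noncomputable def gf (q : ℕ) : ℝ := ∏ p ∈ q.primeFactors, (1 - (rt p : ℝ) / p)⁻¹

lemma rt_two : rt 2 = 1 := by decide

lemma dvd_sq_iff {p : ℕ} (x : ℕ) : p ∣ x ^ 2 + 1 ↔ ((x : ZMod p)) ^ 2 + 1 = 0 := by
  rw [← ZMod.natCast_eq_zero_iff]
  push_cast
  rfl

lemma mod_four_of_dvd {p a : ℕ} (hp : p.Prime) (h2 : p ≠ 2) (h : p ∣ a ^ 2 + 1) : p % 4 = 1 := by
  have : Fact p.Prime := ⟨hp⟩
  rw [dvd_sq_iff] at h
  have h3 : p % 4 ≠ 3 := by
    refine ZMod.mod_four_ne_three_of_sq_eq_neg_one (y := (a : ZMod p)) ?_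
    linear_combination h
  have h4 : p % 2 = 1 := (hp.eq_two_or_odd).resolve_left h2
  omega

lemma rt_three {p : ℕ} (hp : p.Prime) (h : p % 4 = 3) : rt p = 0 := by
  unfold rt
  rw [card_eq_zero, filter_eq_empty_iff]
  intro x _ hx
  have := mod_four_of_dvd hp (by rintro rfl; omega) hx
  omega

lemma rt_one {p : ℕ} (hp : p.Prime) (h : p % 4 = 1) : rt p = 2 := by
  have : Fact p.Prime := ⟨hp⟩
  have hsq : IsSquare (-1 : ZMod p) := ZMod.exists_sq_eq_neg_one_iff.2 (by omega)
  obtain ⟨r, hr⟩ := hsq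
  have h2 : (2 : ZMod p) ≠ 0 := by
    have : ((2 : ℕ) : ZMod p) ≠ 0 := by
      rw [Ne, ZMod.natCast_eq_zero_iff]
      intro h
      have := Nat.le_of_dvd (by norm_num) h
      have := hp.two_le
      interval_cases p
      omega
    exact_mod_cast this
  have hr0 : r ≠ 0 := by
    rintro rfl
    simp at hr
  have hne : r ≠ -r := by
    intro h
    have h3 : 2 * r = 0 := by linear_combination h
    rcases mul_eq_zero.1 h3 with h4 | h4
    · exact h2 h4
    · exact hr0 h4
  unfold rt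
  have hset : (range p).filter (fun x => p ∣ x ^ 2 + 1) = {r.val, (-r).val} := by
    ext x
    rw [mem_filter, mem_range, mem_insert, mem_singleton, dvd_sq_iff]
    have key : ((x : ZMod p)) ^ 2 + 1 = 0 ↔ (x : ZMod p) = r ∨ (x : ZMod p) = -r := by
      constructor
      · intro h
        have h3 : ((x : ZMod p) - r) * ((x : ZMod p) + r) = 0 := by linear_combination h + hr
        rcases mul_eq_zero.1 h3 with h4 | h4
        · left; linear_combination h4
        · right; linear_combination h4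
      · rintro (h | h) <;> rw [h] <;> linear_combination -hr
    rw [key]
    constructor
    · rintro ⟨hx, h | h⟩
      · left
        rw [← h, ZMod.val_natCast_of_lt hx]
      · right
        rw [← h, ZMod.val_natCast_of_lt hx]
    · rintro (rfl | rfl)
      · exact ⟨ZMod.val_lt _, Or.inl (ZMod.natCast_zmod_val _)⟩
      · exact ⟨ZMod.val_lt _, Or.inr (ZMod.natCast_zmod_val _)⟩
  rw [hset, card_pair]
  intro h
  exact hne (ZMod.val_injective p h)

/-- product of the primes `1 mod 4` up to `z` -/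
def PP (z : ℕ) : ℕ := ∏ p ∈ Ioc 0 z with p.Prime ∧ p % 4 = 1, p

lemma PP_le (z : ℕ) : PP z ≤ 4 ^ z := by
  have h1 : PP z ≤ primorial z := by
    unfold primorial PP
    refine prod_le_prod_of_subset_of_one_le' ?_ ?_
    · intro p hp
      rw [mem_filter, mem_Ioc] at hp
      rw [mem_filter, mem_range]
      exact ⟨by omega, hp.2.1⟩
    · intro p hp _
      exact (mem_filter.1 hp).2.one_le
  exact h1.trans (primorial_le_four_pow z)

lemma dvd_PP {z p : ℕ} (hp : p.Prime) (h4 : p % 4 = 1) (h : p ≤ z) : p ∣ PP z :=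
  dvd_prod_of_mem _ (mem_filter.2 ⟨mem_Ioc.2 ⟨hp.pos, h⟩, hp, h4⟩)

lemma PP_pos (z : ℕ) : 0 < PP z :=
  prod_pos fun _ hp => (mem_filter.1 hp).2.1.pos

lemma PP_odd (z : ℕ) : PP z % 2 = 1 := by
  rw [← Nat.odd_iff]
  refine Finset.prod_induction _ (fun n => Odd n) (fun _ _ => Odd.mul) odd_one ?_
  intro p hp
  have := (mem_filter.1 hp).2.2
  rw [Nat.odd_iff]
  omega

lemma PP_squarefree (z : ℕ) : Squarefree (PP z) := by
  unfold PP
  refine Finset.squarefree_prod_of_pairwise_isCoprime ?_ ?_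
  · intro p hp q hq hpq
    show IsRelPrime p q
    rw [← Nat.coprime_iff_isRelPrime]
    exact (Nat.coprime_primes (mem_filter.1 hp).2.1 (mem_filter.1 hq).2.1).2 hpq
  · intro p hp
    exact (mem_filter.1 hp).2.1.prime.squarefree

/-- the shift `a` -/
lemma exists_shift (z : ℕ) : ∃ a : ℕ, a % 2 = 0 ∧ PP z ∣ a ^ 2 + 1 ∧ a < 2 * 4 ^ z := by
  have h1 : IsSquare (-1 : ZMod (PP z)) := by
    rw [ZMod.isSquare_neg_one_iff_forall_mem_primeFactors_mod_four_ne_three (PP_squarefree z)]
    intro q hqm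
    have hq := Nat.prime_of_mem_primeFactors hqm
    have hd := Nat.dvd_of_mem_primeFactors hqm
    unfold PP at hd
    obtain ⟨p, hp, hqp⟩ := (hq.prime.dvd_finsetProd_iff _).1 hd
    have hp' := (mem_filter.1 hp).2
    have := (Nat.prime_dvd_prime_iff_eq hq hp'.1).1 hqp
    subst this
    omega
  have : NeZero (PP z) := ⟨(PP_pos z).ne'⟩
  obtain ⟨r, hr⟩ := h1
  have hd : PP z ∣ r.val ^ 2 + 1 := by
    rw [dvd_sq_iff, ZMod.natCast_zmod_val]
    linear_combination -hr
  have hlt := ZMod.val_lt r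
  have hP := PP_le z
  have hodd := PP_odd z
  rcases Nat.mod_two_eq_zero_or_one r.val with h | h
  · exact ⟨r.val, h, hd, by omega⟩
  · refine ⟨r.val + PP z, by omega, ?_, by omega⟩
    have : (r.val + PP z) ^ 2 + 1 = (r.val ^ 2 + 1) + PP z * (2 * r.val + PP z) := by ring
    rw [this]
    exact hd.add (dvd_mul_right _ _)

/-- Legendre sieve -/
lemma legendre (k : ℕ) : ∀ N : ℕ, |(Sc N k : ℝ) - N * V k| ≤ 2 ^ k - 1 := by
  induction k with
  | zero =>
    intro N
    have h1 : Sc N 0 = N := by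
      classical
      unfold Sc
      rw [filter_true_of_mem]
      · simp
      · intro n _ p hp _ h0
        have := hp.pos
        omega
    have h2 : V 0 = 1 := by simp [V]
    rw [h1, h2]
    simp
  | succ k ih =>
    intro N
    by_cases hp : (k + 1).Prime ∧ (k + 1) % 4 = 1
    · have h1 := Sc_succ_of (N := N) hp.1 hp.2
      have h2 : V (k + 1) = V k * (1 - 1 / ((k + 1 : ℕ) : ℝ)) := by
        unfold V
        rw [prod_filter, prod_filter, prod_Ioc_succ_top (by omega), if_pos hp]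
      have h3 : (Sc N (k + 1) : ℝ) = Sc N k - Sc (N / (k + 1)) k := by
        rw [h1]
        push_cast
        ring
      have h4 := abs_le.1 (ih N)
      have h5 := abs_le.1 (ih (N / (k + 1)))
      have hV := V_pos k
      have hV1 := V_le_one k
      have hk : (0 : ℝ) < ((k + 1 : ℕ) : ℝ) := by positivity
      have h6 : ((N / (k + 1) : ℕ) : ℝ) ≤ N / ((k + 1 : ℕ) : ℝ) := Nat.cast_div_le
      have h7 : (N : ℝ) / ((k + 1 : ℕ) : ℝ) - 1 ≤ ((N / (k + 1) : ℕ) : ℝ) := by
        rw [sub_le_iff_le_add, div_le_iff₀ hk]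
        have := Nat.lt_div_mul_add (a := N) (b := k + 1) (Nat.succ_pos k)
        have h8 : N ≤ (N / (k + 1) + 1) * (k + 1) := by
          rw [add_mul, one_mul]
          omega
        calc (N : ℝ) ≤ (((N / (k + 1) + 1) * (k + 1) : ℕ) : ℝ) := by exact_mod_cast h8
          _ = _ := by push_cast; ring
      rw [h3, h2, abs_le]
      have h9 : (N : ℝ) * (V k * (1 - 1 / ((k + 1 : ℕ) : ℝ))) =
          N * V k - N / ((k + 1 : ℕ) : ℝ) * V k := by ring
      rw [h9, pow_succ]
      constructor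
      · nlinarith [mul_le_mul_of_nonneg_right h6 hV.le]
      · nlinarith [mul_le_mul_of_nonneg_right h7 hV.le]
    · rw [Sc_succ_of_not hp]
      have h2 : V (k + 1) = V k := by
        unfold V
        rw [prod_filter, prod_filter, prod_Ioc_succ_top (by omega), if_neg hp, mul_one]
      rw [h2]
      refine (ih N).trans ?_
      rw [pow_succ]
      have : (0 : ℝ) < 2 ^ k := by positivity
      linarith

/-- few large primes divide a number -/
lemma card_mul_log_le {n : ℕ} (hn : 0 < n) {z : ℝ} (hz : 1 ≤ z) (T : Finset ℕ)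
    (hT : T ⊆ n.primeFactors) (h : ∀ p ∈ T, z ≤ p) : (T.card : ℝ) * Real.log z ≤ Real.log n := by
  have h1 : ∏ p ∈ T, p ≤ n := by
    refine Nat.le_of_dvd hn ?_
    exact (prod_dvd_prod_of_subset _ _ _ hT).trans (Nat.prod_primeFactors_dvd n)
  have h2 : z ^ T.card ≤ ((∏ p ∈ T, p : ℕ) : ℝ) := by
    push_cast
    rw [← prod_const]
    exact prod_le_prod (fun _ _ => by linarith) h
  have h3 : z ^ T.card ≤ n := h2.trans (by exact_mod_cast h1)
  rw [← Real.log_pow]
  exact Real.log_le_log (by positivity) h3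

lemma gf_bounds {q z : ℕ} (hz : 4 ≤ z) (hq : 0 < q) (h2 : 2 ∣ q)
    (h : ∀ p ∈ q.primeFactors, p % 4 = 1 → z < p) :
    2 ≤ gf q ∧ gf q ≤ 2 * Real.exp (4 * (Real.log q / Real.log z) / z) := by
  have hz' : (4 : ℝ) ≤ z := by exact_mod_cast hz
  have hlz : 0 < Real.log z := Real.log_pos (by linarith)
  have h2m : 2 ∈ q.primeFactors := Nat.mem_primeFactors.2 ⟨Nat.prime_two, h2, hq.ne'⟩
  set T := (q.primeFactors.erase 2).filter fun p => p % 4 = 1 with hT
  have hprod : gf q = 2 * ∏ p ∈ T, (1 - 2 / (p : ℝ))⁻¹ := by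
    unfold gf
    rw [← mul_prod_erase _ _ h2m, rt_two, hT, prod_filter]
    congr 1
    · norm_num
    · refine prod_congr rfl fun p hp => ?_
      rw [mem_erase] at hp
      have hpp := Nat.prime_of_mem_primeFactors hp.2
      split_ifs with h4
      · rw [rt_one hpp h4]
        norm_num
      · have h5 : p % 2 = 1 := (hpp.eq_two_or_odd).resolve_left hp.1
        rw [rt_three hpp (by omega)]
        simp
  have hTm : ∀ p ∈ T, p ∈ q.primeFactors ∧ z < p := by
    intro p hp
    rw [hT, mem_filter, mem_erase] at hp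
    exact ⟨hp.1.2, h p hp.1.2 hp.2⟩
  have hfac : ∀ p ∈ T, 1 ≤ (1 - 2 / (p : ℝ))⁻¹ ∧ (1 - 2 / (p : ℝ))⁻¹ ≤ Real.exp (4 / z) := by
    intro p hp
    have hzp : (z : ℝ) < p := by exact_mod_cast (hTm p hp).2
    have h5 : 2 / (p : ℝ) ≤ 2 / z := div_le_div_of_nonneg_left (by norm_num) (by linarith) hzp.le
    have h6 : 2 / (z : ℝ) ≤ 1 / 2 := by
      rw [div_le_iff₀ (by linarith)]
      linarith
    have h7 : 0 < 2 / (p : ℝ) := by
      have : (0 : ℝ) < p := by linarith
      positivity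
    constructor
    · rw [one_le_inv₀ (by linarith)]
      linarith
    · have h8 : (1 - 2 / (p : ℝ))⁻¹ ≤ 1 + 4 / z := by
        rw [inv_le_iff_one_le_mul₀ (by linarith)]
        have h9 : 4 / (z : ℝ) = 2 * (2 / z) := by ring
        rw [h9]
        nlinarith
      refine h8.trans ?_
      have := Real.add_one_le_exp (4 / (z : ℝ))
      linarith
  have hlow : 1 ≤ ∏ p ∈ T, (1 - 2 / (p : ℝ))⁻¹ := by
    calc (1 : ℝ) = ∏ p ∈ T, (1 : ℝ) := by simp
      _ ≤ _ := prod_le_prod (fun _ _ => zero_le_one) fun p hp => (hfac p hp).1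
  have hup : ∏ p ∈ T, (1 - 2 / (p : ℝ))⁻¹ ≤ Real.exp (4 * (Real.log q / Real.log z) / z) := by
    calc ∏ p ∈ T, (1 - 2 / (p : ℝ))⁻¹ ≤ ∏ p ∈ T, Real.exp (4 / z) :=
          prod_le_prod (fun p hp => by linarith [(hfac p hp).1]) fun p hp => (hfac p hp).2
      _ = Real.exp (T.card * (4 / z)) := by rw [prod_const, ← Real.exp_nat_mul]
      _ ≤ _ := by
        refine Real.exp_le_exp.2 ?_
        have h9 := card_mul_log_le hq (z := z) (by linarith) T (fun p hp => (hTm p hp).1)
          (fun p hp => by exact_mod_cast (hTm p hp).2.le)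
        have h10 : (T.card : ℝ) ≤ Real.log q / Real.log z := by
          rw [le_div_iff₀ hlz]
          exact h9
        calc (T.card : ℝ) * (4 / z) ≤ Real.log q / Real.log z * (4 / z) :=
              mul_le_mul_of_nonneg_right h10 (by positivity)
          _ = _ := by ring
  rw [hprod]
  constructor
  · linarith
  · linarith

end Pool.Agent.MP484c84AP
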