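import Pool.Agent.Lib.MP484c84AP.Mertens

/-!
# The Buchstab identity for integers without prime factors `1 mod 4` up to a level
-/

open Finset Filter Topology MeasureTheory

namespace Pool.Agent.MP484c84AP

/-- `n` has no prime factor `p ≤ k` with `p % 4 = 1` -/
def Fr (k n : ℕ) : Prop := ∀ p : ℕ, p.Prime → p % 4 = 1 → p ≤ k → ¬ p ∣ n

open Classical in
/-- number of `1 ≤ n ≤ N` without prime factor `p ≤ k`, `p % 4 = 1` -/
noncomputable def Sc (N k : ℕ) : ℕ := ((Ioc 0 N).filter (Fr k)).card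

lemma Fr_mono {k l n : ℕ} (h : k ≤ l) (hn : Fr l n) : Fr k n :=
  fun p hp h4 hk => hn p hp h4 (hk.trans h)

lemma Sc_mono_left {M N : ℕ} (k : ℕ) (h : M ≤ N) : Sc M k ≤ Sc N k := by
  classical
  refine card_le_card (filter_subset_filter _ ?_)
  exact Ioc_subset_Ioc_right h

lemma Sc_anti_right (N : ℕ) {k l : ℕ} (h : k ≤ l) : Sc N l ≤ Sc N k := by
  classical
  refine card_le_card fun n hn => ?_
  rw [mem_filter] at hn ⊢
  exact ⟨hn.1, Fr_mono h hn.2⟩

lemma Sc_le (N k : ℕ) : Sc N k ≤ N := by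
  classical
  refine (card_filter_le _ _).trans ?_
  simp

/-- for arguments below the level the level is irrelevant -/
lemma Sc_eq_of_le {N k l : ℕ} (hk : N ≤ k) (hl : N ≤ l) : Sc N k = Sc N l := by
  classical
  unfold Sc
  congr 1
  refine filter_congr fun n hn => ?_
  rw [mem_Ioc] at hn
  constructor
  · intro h p hp h4 _ hd
    have := Nat.le_of_dvd hn.1 hd
    exact h p hp h4 (by omega) hd
  · intro h p hp h4 _ hd
    have := Nat.le_of_dvd hn.1 hd
    exact h p hp h4 (by omega) hd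

lemma Sc_succ_of_not {N z : ℕ} (h : ¬ ((z + 1).Prime ∧ (z + 1) % 4 = 1)) :
    Sc N (z + 1) = Sc N z := by
  classical
  unfold Sc
  congr 1
  refine filter_congr fun n hn => ?_
  constructor
  · exact Fr_mono (Nat.le_succ z)
  · intro hn p hp h4 hpz
    rcases Nat.lt_or_ge p (z + 1) with h1 | h1
    · exact hn p hp h4 (by omega)
    · have : p = z + 1 := by omega
      subst this
      exact absurd ⟨hp, h4⟩ h

lemma Sc_succ_of {N z : ℕ} (hp : (z + 1).Prime) (h4 : (z + 1) % 4 = 1) :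
    Sc N z = Sc N (z + 1) + Sc (N / (z + 1)) z := by
  classical
  have hsplit : (Ioc 0 N).filter (Fr z) = (Ioc 0 N).filter (Fr (z + 1)) ∪
      ((Ioc 0 (N / (z + 1))).filter (Fr z)).image (fun m => (z + 1) * m) := by
    ext n
    rw [mem_union, mem_filter, mem_filter, mem_image, mem_Ioc]
    constructor
    · rintro ⟨⟨h0, hN⟩, hF⟩
      by_cases hd : z + 1 ∣ n
      · right
        obtain ⟨m, rfl⟩ := hd
        refine ⟨m, ?_, rfl⟩
        rw [mem_filter, mem_Ioc]
        refine ⟨⟨Nat.pos_of_mul_pos_left h0 |> fun h => ?_, ?_⟩, ?_⟩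
        · rcases Nat.eq_zero_or_pos m with rfl | h
          · simp at h0
          · exact h
        · rw [Nat.le_div_iff_mul_le (Nat.succ_pos z), mul_comm]
          exact hN
        · intro p hp' h4' hpz hd
          exact hF p hp' h4' hpz (hd.mul_left _)
      · left
        refine ⟨⟨h0, hN⟩, fun p hp' h4' hpz => ?_⟩
        rcases Nat.lt_or_ge p (z + 1) with h1 | h1
        · exact hF p hp' h4' (by omega)
        · have : p = z + 1 := by omega
          subst this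
          exact hd
    · rintro (⟨h, hF⟩ | ⟨m, hm, rfl⟩)
      · exact ⟨h, Fr_mono (Nat.le_succ z) hF⟩
      · rw [mem_filter, mem_Ioc, Nat.le_div_iff_mul_le (Nat.succ_pos z)] at hm
        refine ⟨⟨Nat.mul_pos (Nat.succ_pos z) hm.1.1, by rw [mul_comm]; exact hm.1.2⟩, ?_⟩
        intro p hp' h4' hpz hd
        rcases (Nat.Prime.dvd_mul hp').1 hd with h | h
        · have := (Nat.prime_dvd_prime_iff_eq hp' hp).1 h
          omega
        · exact hm.2 p hp' h4' hpz h
  unfold Sc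
  rw [hsplit, card_union_of_disjoint, card_image_of_injective]
  · intro a b hab
    exact Nat.eq_of_mul_eq_mul_left (Nat.succ_pos z) hab
  · rw [disjoint_left]
    intro n hn hn'
    rw [mem_image] at hn'
    obtain ⟨m, _, rfl⟩ := hn'
    exact (mem_filter.1 hn).2 (z + 1) hp h4 le_rfl (dvd_mul_right _ _)

/-- Buchstab identity -/
theorem buchstab (N : ℕ) {w z : ℕ} (h : w ≤ z) :
    Sc N w = Sc N z + ∑ p ∈ Ioc w z with p.Prime ∧ p % 4 = 1, Sc (N / p) (p - 1) := by
  induction z, h using Nat.le_induction with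
  | base => simp
  | succ z hz ih =>
    rw [ih, sum_filter, sum_filter, sum_Ioc_succ_top (by omega)]
    by_cases hp : (z + 1).Prime ∧ (z + 1) % 4 = 1
    · rw [if_pos hp, Sc_succ_of (N := N) hp.1 hp.2]
      simp only [Nat.add_sub_cancel]
      omega
    · rw [if_neg hp, Sc_succ_of_not hp]
      omega

/-- logarithmic count -/
noncomputable def D (x y : ℝ) (k : ℕ) : ℝ := ∫ t in x..y, (Sc ⌊t⌋₊ k : ℝ) / t ^ 2

lemma mono_Sc_floor (k : ℕ) : Monotone fun t : ℝ => (Sc ⌊t⌋₊ k : ℝ) := by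
  intro a b hab
  have := Sc_mono_left k (Nat.floor_le_floor hab)
  show (Sc ⌊a⌋₊ k : ℝ) ≤ (Sc ⌊b⌋₊ k : ℝ)
  exact_mod_cast this

lemma intble {f : ℝ → ℝ} (hf : Monotone f) {x y : ℝ} (hx : 0 < x) (hxy : x ≤ y) :
    IntervalIntegrable (fun t => f t / t ^ 2) volume x y := by
  have h1 : IntervalIntegrable f volume x y := hf.intervalIntegrable
  have h2 : ContinuousOn (fun t : ℝ => (t ^ 2)⁻¹) (Set.uIcc x y) := by
    refine ContinuousOn.inv₀ (by fun_prop) fun t ht => ?_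
    rw [Set.uIcc_of_le hxy] at ht
    have : 0 < t := hx.trans_le ht.1
    positivity
  have h3 := h1.mul_continuousOn h2
  refine h3.congr fun t _ => ?_
  simp only [div_eq_mul_inv]

lemma D_anti_level {x y : ℝ} (hx : 0 < x) (hxy : x ≤ y) {k l : ℕ} (h : k ≤ l) :
    D x y l ≤ D x y k := by
  refine intervalIntegral.integral_mono_on hxy (intble (mono_Sc_floor l) hx hxy)
    (intble (mono_Sc_floor k) hx hxy) fun t _ => ?_
  have := Sc_anti_right ⌊t⌋₊ h
  have h2 : (Sc ⌊t⌋₊ l : ℝ) ≤ Sc ⌊t⌋₊ k := by exact_mod_cast this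
  exact div_le_div_of_nonneg_right h2 (sq_nonneg t)

lemma D_window {x x' y' y : ℝ} (hx : 0 < x) (h1 : x ≤ x') (h2 : x' ≤ y') (h3 : y' ≤ y) (k : ℕ) :
    D x' y' k ≤ D x y k := by
  refine intervalIntegral.integral_mono_interval h1 h2 h3 ?_ (intble (mono_Sc_floor k) hx
    (h1.trans (h2.trans h3)))
  refine Eventually.of_forall fun t => ?_
  show (0 : ℝ) ≤ (Sc ⌊t⌋₊ k : ℝ) / t ^ 2
  positivity

lemma D_scale {x y : ℝ} {p : ℕ} (hp : 0 < p) (k : ℕ) :
    ∫ t in x..y, (Sc (⌊t⌋₊ / p) k : ℝ) / t ^ 2 = 1 / p * D (x / p) (y / p) k := by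
  have hp' : (p : ℝ) ≠ 0 := by positivity
  have h1 := intervalIntegral.integral_comp_div (a := x) (b := y)
    (fun u : ℝ => (Sc ⌊u⌋₊ k : ℝ) / u ^ 2) hp'
  unfold D
  have h2 : ∀ t : ℝ, (Sc (⌊t⌋₊ / p) k : ℝ) / t ^ 2 =
      (1 / (p : ℝ) ^ 2) * ((Sc ⌊t / p⌋₊ k : ℝ) / (t / p) ^ 2) := by
    intro t
    rw [Nat.floor_div_natCast]
    rcases eq_or_ne t 0 with rfl | ht
    · simp
    · field_simp
  simp_rw [h2]
  rw [intervalIntegral.integral_const_mul, h1, smul_eq_mul]
  field_simp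

theorem D_buchstab {x y : ℝ} (hx : 0 < x) (hxy : x ≤ y) {w z : ℕ} (h : w ≤ z) :
    D x y w = D x y z + ∑ p ∈ Ioc w z with p.Prime ∧ p % 4 = 1,
      1 / (p : ℝ) * D (x / p) (y / p) (p - 1) := by
  have h1 : D x y w = ∫ t in x..y, ((Sc ⌊t⌋₊ z : ℝ) / t ^ 2 +
      ∑ p ∈ Ioc w z with p.Prime ∧ p % 4 = 1, (Sc (⌊t⌋₊ / p) (p - 1) : ℝ) / t ^ 2) := by
    unfold D
    congr 1
    ext t
    rw [buchstab ⌊t⌋₊ h, ← sum_div, ← add_div]
    push_cast
    rfl
  have hmono : ∀ p : ℕ, Monotone fun t : ℝ => (Sc (⌊t⌋₊ / p) (p - 1) : ℝ) := by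
    intro p a b hab
    have := Sc_mono_left (p - 1) (Nat.div_le_div_right (c := p) (Nat.floor_le_floor hab))
    show (Sc (⌊a⌋₊ / p) (p - 1) : ℝ) ≤ (Sc (⌊b⌋₊ / p) (p - 1) : ℝ)
    exact_mod_cast this
  rw [h1, intervalIntegral.integral_add (intble (mono_Sc_floor z) hx hxy),
    intervalIntegral.integral_finsetSum]
  · refine congrArg₂ (· + ·) rfl (sum_congr rfl fun p hp => ?_)
    exact D_scale (mem_filter.1 hp).2.1.pos _
  · intro p hp
    exact intble (hmono p) hx hxy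
  · have h2 := IntervalIntegrable.sum (μ := volume) (a := x) (b := y)
      ((Ioc w z).filter fun p => p.Prime ∧ p % 4 = 1)
      (f := fun p t => (Sc (⌊t⌋₊ / p) (p - 1) : ℝ) / t ^ 2)
      (fun p hp => intble (hmono p) hx hxy)
    refine h2.congr fun t _ => ?_
    simp

lemma D_nonneg {x y : ℝ} (hxy : x ≤ y) (k : ℕ) : 0 ≤ D x y k := by
  refine intervalIntegral.integral_nonneg hxy fun t _ => ?_
  positivity

end Pool.Agent.MP484c84AP
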