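import Pool.Agent.Lib.MP484c84AP.Core

/-!
# The uniform asymptotic forces the sifted sets to have the product density
-/

open Finset Filter Topology

namespace Pool.Agent.MP484c84AP

lemma numeric_up {e X H : ℝ} (he : 0 < e) (he1 : e ≤ 1 / 50) (hH : 0 ≤ H)
    (h : X * (1 - 8 * e) ≤ (1 + e) ^ 4 * H) : X ≤ (1 + 20 * e) * H := by
  have h1 : (1 + e) ^ 4 ≤ (1 - 8 * e) * (1 + 20 * e) := by
    have h2 : (1 - 8 * e) * (1 + 20 * e) - (1 + e) ^ 4 =
        e * (8 - 166 * e - 4 * e ^ 2 - e ^ 3) := by ring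
    have h3 : 0 ≤ 8 - 166 * e - 4 * e ^ 2 - e ^ 3 := by nlinarith [sq_nonneg e]
    nlinarith
  have h4 : 0 < 1 - 8 * e := by linarith
  have h5 : X * (1 - 8 * e) ≤ (1 + 20 * e) * H * (1 - 8 * e) := by
    calc X * (1 - 8 * e) ≤ (1 + e) ^ 4 * H := h
      _ ≤ (1 - 8 * e) * (1 + 20 * e) * H := mul_le_mul_of_nonneg_right h1 hH
      _ = _ := by ring
  exact le_of_mul_le_mul_right h5 h4

lemma numeric_low {e X H : ℝ} (he : 0 < e) (he1 : e ≤ 1 / 50) (hH : 0 ≤ H)
    (h : (1 - 2 * e) * (1 - e) * H ≤ X * ((1 + e) ^ 2 * (1 + 6 * e))) :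
    (1 - 20 * e) * H ≤ X := by
  have h1 : (1 - 20 * e) * ((1 + e) ^ 2 * (1 + 6 * e)) ≤ (1 - 2 * e) * (1 - e) := by
    have h2 : (1 - 2 * e) * (1 - e) - (1 - 20 * e) * ((1 + e) ^ 2 * (1 + 6 * e)) =
        e * (9 + 149 * e + 254 * e ^ 2 + 120 * e ^ 3) := by ring
    have h3 : 0 ≤ e * (9 + 149 * e + 254 * e ^ 2 + 120 * e ^ 3) := by positivity
    linarith
  have h4 : 0 < (1 + e) ^ 2 * (1 + 6 * e) := by positivity
  have h5 : (1 - 20 * e) * H * ((1 + e) ^ 2 * (1 + 6 * e)) ≤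
      X * ((1 + e) ^ 2 * (1 + 6 * e)) := by
    calc (1 - 20 * e) * H * ((1 + e) ^ 2 * (1 + 6 * e)) =
          (1 - 20 * e) * ((1 + e) ^ 2 * (1 + 6 * e)) * H := by ring
      _ ≤ (1 - 2 * e) * (1 - e) * H := mul_le_mul_of_nonneg_right h1 hH
      _ ≤ _ := h
  exact le_of_mul_le_mul_right h5 h4

variable {A B X e c : ℝ} {z h : ℕ}

lemma card_BB (hz : 13 ≤ z) {a : ℕ} (ha : a < 2 * 4 ^ z) :
    ((BB a z).card : ℝ) * Real.log z ≤ 4 * z := by
  have hz' : (13 : ℝ) ≤ z := by exact_mod_cast hz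
  have h1 := card_mul_log_le (n := a ^ 2 + 1) (by positivity) (z := z) (by linarith) (BB a z)
    (filter_subset _ _) (fun p hp => by
      have := (mem_filter.1 hp).2
      exact_mod_cast this.le)
  refine h1.trans ?_
  have h2 : a ^ 2 + 1 ≤ 4 * 16 ^ z := by
    have h3 : a + 1 ≤ 2 * 4 ^ z := ha
    have h4 : (a + 1) ^ 2 ≤ (2 * 4 ^ z) ^ 2 := Nat.pow_le_pow_left h3 2
    have h5 : (2 * 4 ^ z) ^ 2 = 4 * 16 ^ z := by
      rw [mul_pow, ← pow_mul, mul_comm z 2, pow_mul]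
      norm_num
    nlinarith
  have h3 : ((a ^ 2 + 1 : ℕ) : ℝ) ≤ 4 * 16 ^ z := by exact_mod_cast h2
  refine (Real.log_le_log (by positivity) h3).trans ?_
  rw [Real.log_mul (by norm_num) (by positivity), Real.log_pow]
  have h4 : Real.log 4 = 2 * Real.log 2 := by
    rw [show (4 : ℝ) = 2 ^ 2 by norm_num, Real.log_pow]
    norm_num
  have h5 : Real.log 16 = 4 * Real.log 2 := by
    rw [show (16 : ℝ) = 2 ^ 4 by norm_num, Real.log_pow]
    norm_num
  rw [h4, h5]
  have := Real.log_two_lt_d9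
  nlinarith

/-- size of the set of rows -/
lemma QQ_bounds (he : 0 < e) (hB : Big A B X e z h) {a : ℕ} (ha2 : 2 ∣ a)
    (haP : PP z ∣ a ^ 2 + 1) (ha : a < 2 * 4 ^ z) :
    (1 - 2 * e) * (64 ^ z * V z) ≤ (QQ a (2 * 64 ^ z)).card ∧
    ((QQ a (2 * 64 ^ z)).card : ℝ) ≤ (1 + e) * (64 ^ z * V z) := by
  classical
  obtain ⟨hz, hX, h1, E1, E2, E3, E5, E6, E7, E8, E9⟩ := hB
  have hz' : (13 : ℝ) ≤ z := by exact_mod_cast hz
  have hlz : 0 < Real.log z := Real.log_pos (by linarith)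
  set T : ℕ := 64 ^ z with hT
  have hTc : (T : ℝ) = 64 ^ z := by rw [hT]; push_cast; ring
  have hTT : T ≤ 2 * T := by omega
  have hcard := card_QQ (a := a) (T := T) ha2
  have h2 := coprime_le (z := z) haP (Ioc T (2 * T))
  have h3 := le_coprime (z := z) ha2 (Ioc T (2 * T))
  have h4 := card_Fr_Ioc (z := z) hTT
  rw [← hcard] at h2 h3
  have l1 := abs_le.1 (legendre z T)
  have l2 := abs_le.1 (legendre z (2 * T))
  have h4' : (((Ioc T (2 * T)).filter (Fr z)).card : ℝ) = Sc (2 * T) z - Sc T z := by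
    have : ((((Ioc T (2 * T)).filter (Fr z)).card + Sc T z : ℕ) : ℝ) = (Sc (2 * T) z : ℕ) := by
      rw [h4]
    push_cast at this
    linarith
  push_cast at l2
  have hFr1 : (1 - e) * (64 ^ z * V z) ≤ ((Ioc T (2 * T)).filter (Fr z)).card := by
    rw [h4', ← hTc]
    rw [← hTc] at E5
    linarith [l1.2, l2.1]
  have hFr2 : (((Ioc T (2 * T)).filter (Fr z)).card : ℝ) ≤ (1 + e) * (64 ^ z * V z) := by
    rw [h4', ← hTc]
    rw [← hTc] at E5
    linarith [l1.1, l2.2]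
  have hbad : ((∑ p ∈ BB a z, ((Ioc T (2 * T)).filter fun n => p ∣ n).card : ℕ) : ℝ) ≤
      e * (64 ^ z * V z) := by
    have h5 : ∀ p ∈ BB a z, (((Ioc T (2 * T)).filter fun n => p ∣ n).card : ℝ) ≤
        2 * (64 ^ z / z) := by
      intro p hp
      have hzp : z < p := (mem_filter.1 hp).2
      have h6 := card_dvd_Ioc T (2 * T) p (by omega) hTT
      have h7 : (((2 * T - T) / p : ℕ) : ℝ) ≤ 64 ^ z / z := by
        have h8 : 2 * T - T = T := by omega
        rw [h8]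
        calc ((T / p : ℕ) : ℝ) ≤ (T : ℝ) / p := Nat.cast_div_le
          _ ≤ T / z := div_le_div_of_nonneg_left (by positivity) (by linarith)
              (by exact_mod_cast hzp.le)
          _ = _ := by rw [hTc]
      have h8 : (1 : ℝ) ≤ 64 ^ z / z := by
        rw [le_div_iff₀ (by linarith), one_mul]
        have : z < 64 ^ z := Nat.lt_pow_self (by norm_num)
        exact_mod_cast this.le
      have h9 : (((Ioc T (2 * T)).filter fun n => p ∣ n).card : ℝ) ≤
          (((2 * T - T) / p + 1 : ℕ) : ℝ) := by exact_mod_cast h6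
      push_cast at h9 h7
      linarith
    push_cast
    refine (sum_le_sum h5).trans ?_
    rw [sum_const, nsmul_eq_mul]
    have h10 := card_BB hz ha
    have h64 : (0 : ℝ) < 64 ^ z := by positivity
    have h11 : ((BB a z).card : ℝ) ≤ 4 * z / Real.log z := by
      rw [le_div_iff₀ hlz]
      exact h10
    calc ((BB a z).card : ℝ) * (2 * (64 ^ z / z)) ≤ 4 * z / Real.log z * (2 * (64 ^ z / z)) :=
          mul_le_mul_of_nonneg_right h11 (by positivity)
      _ = 8 / Real.log z * 64 ^ z := by field_simp; ring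
      _ ≤ e * V z * 64 ^ z := by
        refine mul_le_mul_of_nonneg_right ?_ h64.le
        rw [div_le_iff₀ hlz]
        linarith
      _ = _ := by ring
  have h2' : ((QQ a (2 * T)).card : ℝ) ≤ ((Ioc T (2 * T)).filter (Fr z)).card := by
    exact_mod_cast h2
  have h3' : (((Ioc T (2 * T)).filter (Fr z)).card : ℝ) ≤ (QQ a (2 * T)).card +
      ((∑ p ∈ BB a z, ((Ioc T (2 * T)).filter fun n => p ∣ n).card : ℕ) : ℝ) := by
    exact_mod_cast h3
  constructor
  · linarith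
  · linarith

/-- the sifted sets have the product density -/
theorem compare (hc : 0 < c) (he : 0 < e) (he1 : e ≤ 1 / 50) (hA : 0 < A)
    (hB0 : 0 < B) (hU : Unif A B e c X) (hB : Big A B X e z h) :
    |(Sc h z : ℝ) - h * V z| ≤ 21 * e * (h * V z) := by
  classical
  obtain ⟨a, ha2, haP, ha⟩ := exists_shift z
  have ha2' : 2 ∣ a := Nat.dvd_of_mod_eq_zero ha2
  have ha64 : a < 2 * 64 ^ z := by
    refine ha.trans_le (Nat.mul_le_mul_left 2 ?_)
    exact Nat.pow_le_pow_left (by norm_num) z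
  have hQ := QQ_bounds he hB ha2' haP ha
  have hrow := fun q hq => row_bounds (q := q) hc he he1 hA hB0 hU hB ha2' haP ha64 hq
  have hcolb := fun s hs => col_bounds (s := s) hc he he1 hA hB0 hU hB ha2' haP ha64 hs
  obtain ⟨hz, hX, h1, E1, E2, E3, E5, E6, E7, E8, E9⟩ := hB
  have hz' : (13 : ℝ) ≤ z := by exact_mod_cast hz
  have hlz : 0 < Real.log z := Real.log_pos (by linarith)
  set L := Real.log (2 * 64 ^ z) with hL
  have hLpos : 0 < L := pos_of_mul_pos_right (by linarith : 0 < e * L) he.le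
  have hh0 : (0 : ℝ) < h := pos_of_mul_pos_right (by linarith : 0 < e * (h : ℝ)) he.le
  have hV := V_pos z
  have h64 : (0 : ℝ) < 64 ^ z := by positivity
  have heq := rows_eq_cols (a := a) (h := h) (T := 2 * 64 ^ z) (by
    have : 0 < 64 ^ z := by positivity
    omega)
  have heq' : ∑ q ∈ QQ a (2 * 64 ^ z), (Nrow a h q : ℝ) =
      ∑ s ∈ SS a h, (Ccol a (2 * 64 ^ z) s : ℝ) := by exact_mod_cast heq
  set q0 : ℝ := ((QQ a (2 * 64 ^ z)).card : ℝ) with hq0
  set s0 : ℝ := ((SS a h).card : ℝ) with hs0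
  have r1 : q0 * ((1 - e) * (2 * c * h / ((1 + e) * L))) ≤
      ∑ q ∈ QQ a (2 * 64 ^ z), (Nrow a h q : ℝ) := by
    rw [hq0, ← nsmul_eq_mul, ← sum_const]
    exact sum_le_sum fun q hq => (hrow q hq).1
  have r2 : ∑ q ∈ QQ a (2 * 64 ^ z), (Nrow a h q : ℝ) ≤
      q0 * ((1 + e) ^ 3 * (2 * c * h / L)) := by
    rw [hq0, ← nsmul_eq_mul, ← sum_const]
    exact sum_le_sum fun q hq => (hrow q hq).2
  have c1 : s0 * ((1 - 8 * e) * (2 * c * 64 ^ z / L)) ≤
      ∑ s ∈ SS a h, (Ccol a (2 * 64 ^ z) s : ℝ) := by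
    rw [hs0, ← nsmul_eq_mul, ← sum_const]
    exact sum_le_sum fun s hs => (hcolb s hs).1
  have c2 : ∑ s ∈ SS a h, (Ccol a (2 * 64 ^ z) s : ℝ) ≤
      s0 * ((1 + e) * (1 + 6 * e) * (2 * c * 64 ^ z / L)) := by
    rw [hs0, ← nsmul_eq_mul, ← sum_const]
    exact sum_le_sum fun s hs => (hcolb s hs).2
  have k1 : s0 * (1 - 8 * e) * 64 ^ z ≤ q0 * ((1 + e) ^ 3 * h) := by
    have h2 : s0 * ((1 - 8 * e) * (2 * c * 64 ^ z / L)) ≤
        q0 * ((1 + e) ^ 3 * (2 * c * h / L)) := by linarith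
    have h3 : s0 * ((1 - 8 * e) * (2 * c * 64 ^ z / L)) =
        s0 * (1 - 8 * e) * 64 ^ z * (2 * c / L) := by ring
    have h4 : q0 * ((1 + e) ^ 3 * (2 * c * h / L)) =
        q0 * ((1 + e) ^ 3 * h) * (2 * c / L) := by ring
    rw [h3, h4] at h2
    exact le_of_mul_le_mul_right h2 (by positivity)
  have k2 : q0 * ((1 - e) * h) ≤ s0 * ((1 + e) ^ 2 * (1 + 6 * e)) * 64 ^ z := by
    have h2 : q0 * ((1 - e) * (2 * c * h / ((1 + e) * L))) ≤
        s0 * ((1 + e) * (1 + 6 * e) * (2 * c * 64 ^ z / L)) := by linarith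
    have h3 : q0 * ((1 - e) * (2 * c * h / ((1 + e) * L))) =
        q0 * ((1 - e) * h) * (2 * c / ((1 + e) * L)) := by ring
    have h4 : s0 * ((1 + e) * (1 + 6 * e) * (2 * c * 64 ^ z / L)) =
        s0 * ((1 + e) ^ 2 * (1 + 6 * e)) * 64 ^ z * (2 * c / ((1 + e) * L)) := by
      field_simp
    rw [h3, h4] at h2
    exact le_of_mul_le_mul_right h2 (by positivity)
  have hup : s0 ≤ (1 + 20 * e) * (h * V z) := by
    refine numeric_up he he1 (by positivity) ?_
    have h2 : q0 * ((1 + e) ^ 3 * h) ≤ (1 + e) * (64 ^ z * V z) * ((1 + e) ^ 3 * h) :=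
      mul_le_mul_of_nonneg_right hQ.2 (by positivity)
    have h3 : s0 * (1 - 8 * e) * 64 ^ z ≤ (1 + e) ^ 4 * (h * V z) * 64 ^ z := by
      calc s0 * (1 - 8 * e) * 64 ^ z ≤ q0 * ((1 + e) ^ 3 * h) := k1
        _ ≤ _ := h2
        _ = _ := by ring
    exact le_of_mul_le_mul_right h3 h64
  have hlow : (1 - 20 * e) * (h * V z) ≤ s0 := by
    refine numeric_low he he1 (by positivity) ?_
    have h2 : (1 - 2 * e) * (64 ^ z * V z) * ((1 - e) * h) ≤ q0 * ((1 - e) * h) :=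
      mul_le_mul_of_nonneg_right hQ.1 (mul_nonneg (by linarith) hh0.le)
    have h3 : (1 - 2 * e) * (1 - e) * (h * V z) * 64 ^ z ≤
        s0 * ((1 + e) ^ 2 * (1 + 6 * e)) * 64 ^ z := by
      calc (1 - 2 * e) * (1 - e) * (h * V z) * 64 ^ z =
            (1 - 2 * e) * (64 ^ z * V z) * ((1 - e) * h) := by ring
        _ ≤ _ := h2
        _ ≤ _ := k2
    exact le_of_mul_le_mul_right h3 h64
  -- from coprime to `a ^ 2 + 1` to free of small primes
  have s1 := coprime_le (z := z) haP (Ioc 0 h)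
  have s2 := le_coprime (z := z) ha2' (Ioc 0 h)
  have hSS : (SS a h).card = ((Ioc 0 h).filter fun n => Nat.Coprime n (a ^ 2 + 1)).card := rfl
  rw [← hSS] at s1 s2
  have s1' : s0 ≤ Sc h z := by
    rw [hs0]
    unfold Sc
    exact_mod_cast s1
  have s2' : (Sc h z : ℝ) ≤ s0 +
      ((∑ p ∈ BB a z, ((Ioc 0 h).filter fun n => p ∣ n).card : ℕ) : ℝ) := by
    rw [hs0]
    unfold Sc
    exact_mod_cast s2
  have hbad : ((∑ p ∈ BB a z, ((Ioc 0 h).filter fun n => p ∣ n).card : ℕ) : ℝ) ≤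
      e * (h * V z) := by
    have h5 : ∀ p ∈ BB a z, (((Ioc 0 h).filter fun n => p ∣ n).card : ℝ) ≤ h / z := by
      intro p hp
      have hzp : z < p := (mem_filter.1 hp).2
      rw [Nat.Ioc_filter_dvd_card_eq_div]
      calc ((h / p : ℕ) : ℝ) ≤ (h : ℝ) / p := Nat.cast_div_le
        _ ≤ h / z := div_le_div_of_nonneg_left (by positivity) (by linarith)
            (by exact_mod_cast hzp.le)
    push_cast
    refine (sum_le_sum h5).trans ?_
    rw [sum_const, nsmul_eq_mul]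
    have h10 := card_BB hz ha
    have h11 : ((BB a z).card : ℝ) ≤ 4 * z / Real.log z := by
      rw [le_div_iff₀ hlz]
      exact h10
    calc ((BB a z).card : ℝ) * (h / z) ≤ 4 * z / Real.log z * (h / z) :=
          mul_le_mul_of_nonneg_right h11 (by positivity)
      _ = 4 / Real.log z * h := by field_simp
      _ ≤ e * V z * h := by
        refine mul_le_mul_of_nonneg_right ?_ hh0.le
        rw [div_le_iff₀ hlz]
        linarith
      _ = _ := by ring
  rw [abs_le]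
  constructor
  · have : 0 ≤ e * (h * V z) := by positivity
    linarith
  · linarith

end Pool.Agent.MP484c84AP
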