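import Pool.Agent.Lib.MP484c84AP.Matrix

/-!
# Comparison of rows and columns under the uniform asymptotic
-/

open Finset Filter Topology

namespace Pool.Agent.MP484c84AP

/-- the expected main term, with constant `c` -/
noncomputable def Mt (c y : ℝ) (q : ℕ) : ℝ := c * gf q * y / (q * Real.log y)

/-- the uniform asymptotic with relative error `δ` -/
def Unif (A B δ c X : ℝ) : Prop :=
  ∀ y : ℝ, X ≤ y → ∀ q a : ℕ, 1 ≤ q → Nat.Coprime (a ^ 2 + 1) q →
    ((q : ℝ) ≤ Real.log y ^ B ∨ y / Real.log y ^ B ≤ q) →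
    (q : ℝ) ≤ y / Real.log y ^ A → |(P1 y q a : ℝ) - Mt c y q| < δ * Mt c y q

/-- the sieve cutoff is large enough for the comparison -/
structure Big (A B X e : ℝ) (z h : ℕ) : Prop where
  hz : 13 ≤ z
  hX : X ≤ 2 * 64 ^ z
  h1 : 1 ≤ e * h
  E1 : Real.log (3 * h) ≤ e * Real.log (2 * 64 ^ z)
  E2 : 1 ≤ e * Real.log (2 * 64 ^ z)
  E3 : Real.exp (20 / Real.log z) ≤ 1 + e
  E5 : 2 * 2 ^ z ≤ e * (64 ^ z * V z)
  E6 : 8 ≤ e * (V z * Real.log z)
  E7 : (10 * (z : ℝ)) ^ A ≤ h
  E8 : (10 * (z : ℝ)) ^ A ≤ 64 ^ z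
  E9 : 2 * ((h : ℝ) + 1) ≤ (z : ℝ) ^ B

variable {A B X e c : ℝ} {z h : ℕ}

lemma log64 : Real.log 64 ≤ 4.2 := by
  have h1 : Real.log 64 = 6 * Real.log 2 := by
    rw [show (64 : ℝ) = 2 ^ 6 by norm_num, Real.log_pow]
    norm_num
  rw [h1]
  have := Real.log_two_lt_d9
  linarith

lemma logT_le (hz : 13 ≤ z) : Real.log (2 * 64 ^ z) + Real.log 2 ≤ 5 * z := by
  have hz' : (13 : ℝ) ≤ z := by exact_mod_cast hz
  rw [Real.log_mul (by norm_num) (by positivity), Real.log_pow]
  have h1 := log64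
  have h2 := Real.log_two_lt_d9
  nlinarith

lemma z_le_logT (z : ℕ) : (z : ℝ) ≤ Real.log (2 * 64 ^ z) := by
  rw [Real.log_mul (by norm_num) (by positivity), Real.log_pow]
  have h7 : 1 ≤ Real.log 64 := by
    rw [Real.le_log_iff_exp_le (by norm_num)]
    have := Real.exp_one_lt_d9
    linarith
  have h8 : 0 < Real.log 2 := Real.log_pos (by norm_num)
  have h9 : (0 : ℝ) ≤ z := Nat.cast_nonneg z
  nlinarith

lemma aux1 (e : ℝ) : (1 - 2 * e) * (1 + e) ≤ 1 - e := by nlinarith [sq_nonneg e]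

/-- analytic bounds for one row -/
lemma row_bounds (hc : 0 < c) (he : 0 < e) (he1 : e ≤ 1 / 50) (hA : 0 < A)
    (hB0 : 0 < B) (hU : Unif A B e c X) (hB : Big A B X e z h)
    {a q : ℕ} (ha2 : 2 ∣ a) (haP : PP z ∣ a ^ 2 + 1) (ha : a < 2 * 64 ^ z)
    (hq : q ∈ QQ a (2 * 64 ^ z)) :
    (1 - e) * (2 * c * h / ((1 + e) * Real.log (2 * 64 ^ z))) ≤ Nrow a h q ∧
    (Nrow a h q : ℝ) ≤ (1 + e) ^ 3 * (2 * c * h / Real.log (2 * 64 ^ z)) := by
  obtain ⟨hz, hX, h1, E1, E2, E3, E5, E6, E7, E8, E9⟩ := hB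
  set L := Real.log (2 * 64 ^ z) with hL
  have hz' : (13 : ℝ) ≤ z := by exact_mod_cast hz
  have hlz : 0 < Real.log z := Real.log_pos (by linarith)
  have hLpos : 0 < L := pos_of_mul_pos_right (by linarith : 0 < e * L) he.le
  have hh0 : (0 : ℝ) < h := pos_of_mul_pos_right (by linarith : 0 < e * (h : ℝ)) he.le
  have hh1 : 1 ≤ h := by exact_mod_cast hh0
  have hh1' : (1 : ℝ) ≤ h := by exact_mod_cast hh1
  unfold QQ at hq
  rw [mem_filter, mem_Ioc] at hq
  obtain ⟨⟨hq1, hq2⟩, h2q, hcop⟩ := hq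
  have hp5 : 5 ∣ a ^ 2 + 1 := (dvd_PP (by norm_num) (by norm_num) (by omega)).trans haP
  have hp13 : 13 ∣ a ^ 2 + 1 := (dvd_PP (by norm_num) (by norm_num) (by omega)).trans haP
  have ha0 : 0 < a := by
    rcases Nat.eq_zero_or_pos a with rfl | h
    · norm_num at hp5
    · exact h
  have hnp : ¬ (a ^ 2 + 1).Prime := by
    intro hpr
    have h5 := (Nat.prime_dvd_prime_iff_eq (by norm_num) hpr).1 hp5
    have h13 := (Nat.prime_dvd_prime_iff_eq (by norm_num) hpr).1 hp13
    omega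
  have haq : a < q := by omega
  have hq0 : (0 : ℝ) < q := by
    have : 0 < q := by omega
    exact_mod_cast this
  have hq1' : (2 : ℝ) * 64 ^ z < q := by exact_mod_cast hq1
  have hq2' : (q : ℝ) ≤ 2 * (2 * 64 ^ z) := by exact_mod_cast hq2
  have haq' : (a : ℝ) < q := by exact_mod_cast haq
  have ha' : (a : ℝ) < 2 * 64 ^ z := by exact_mod_cast ha
  have h64 : (0 : ℝ) < 64 ^ z := by positivity
  set y : ℝ := ((a + h * q : ℕ) : ℝ) with hy
  have hy' : y = a + h * q := by rw [hy]; push_cast; ring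
  have hyq : (h : ℝ) * q ≤ y := by
    have : (0 : ℝ) ≤ a := Nat.cast_nonneg a
    linarith
  have hyq2 : y ≤ (h + 1) * q := by linarith
  have hy2T : 2 * 64 ^ z ≤ y :=
    hq1'.le.trans ((le_mul_of_one_le_left hq0.le hh1').trans hyq)
  have hy3 : y ≤ 3 * h * (2 * 64 ^ z) := by
    rw [hy']
    have h3 : (h : ℝ) * q ≤ h * (2 * (2 * 64 ^ z)) := mul_le_mul_of_nonneg_left hq2' hh0.le
    have h4 : (2 : ℝ) * 64 ^ z ≤ h * (2 * 64 ^ z) := le_mul_of_one_le_left (by positivity) hh1'
    linarith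
  have hypos : 0 < y := by linarith
  have hly1 : L ≤ Real.log y := Real.log_le_log (by positivity) hy2T
  have hly2 : Real.log y ≤ (1 + e) * L := by
    have h3 := Real.log_le_log hypos hy3
    rw [Real.log_mul (by positivity) (by positivity)] at h3
    linarith
  have hlypos : 0 < Real.log y := by linarith
  have hL5 := logT_le hz
  have hl2 := Real.log_two_gt_d9
  have heL : e * L ≤ 1 * L := mul_le_mul_of_nonneg_right (by linarith) hLpos.le
  have hly10 : Real.log y ≤ 10 * z := by linarith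
  have hlA : Real.log y ^ A ≤ (10 * (z : ℝ)) ^ A := Real.rpow_le_rpow hlypos.le hly10 hA.le
  have hcond : (q : ℝ) ≤ y / Real.log y ^ A := by
    rw [le_div_iff₀ (by positivity), mul_comm]
    refine le_trans ?_ hyq
    exact mul_le_mul_of_nonneg_right (hlA.trans E7) hq0.le
  have hcop' : Nat.Coprime (a ^ 2 + 1) q := hcop.symm
  have hrange : y / Real.log y ^ B ≤ q := by
    rw [div_le_iff₀ (by positivity)]
    have h3 : (z : ℝ) ^ B ≤ Real.log y ^ B :=
      Real.rpow_le_rpow (by linarith) ((z_le_logT z).trans hly1) hB0.le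
    have h4 : (h : ℝ) + 1 ≤ Real.log y ^ B := by linarith
    calc y ≤ (h + 1) * q := hyq2
      _ ≤ Real.log y ^ B * q := mul_le_mul_of_nonneg_right h4 hq0.le
      _ = q * Real.log y ^ B := mul_comm _ _
  have hmain := hU y (hX.trans hy2T) q a (by omega) hcop' (Or.inr hrange) hcond
  rw [row_eq ha0 haq hnp] at hmain
  -- the density
  have hg := gf_bounds (q := q) (z := z) (by omega) (by omega) h2q (by
    intro p hp h4
    by_contra hle
    push Not at hle
    have hpp := Nat.prime_of_mem_primeFactors hp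
    have h5 : p ∣ a ^ 2 + 1 := (dvd_PP hpp h4 hle).trans haP
    have h6 := Nat.dvd_gcd (Nat.dvd_of_mem_primeFactors hp) h5
    rw [hcop] at h6
    exact hpp.one_lt.ne' (Nat.dvd_one.1 h6))
  have hlq : Real.log q ≤ 5 * z := by
    have h3 : Real.log q ≤ Real.log (2 * (2 * 64 ^ z)) := Real.log_le_log hq0 hq2'
    rw [Real.log_mul (by norm_num) (by positivity)] at h3
    linarith
  have hg2 : gf q ≤ 2 * (1 + e) := by
    refine hg.2.trans (mul_le_mul_of_nonneg_left (le_trans ?_ E3) (by norm_num))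
    refine Real.exp_le_exp.2 ?_
    rw [div_le_div_iff₀ (by linarith) hlz]
    have : 4 * (Real.log q / Real.log z) * Real.log z = 4 * Real.log q := by
      field_simp
    rw [this]
    linarith
  have hg1 := hg.1
  have hMt : Mt c y q = c * gf q * (y / q) / Real.log y := by
    unfold Mt
    field_simp
  have hyqd1 : (h : ℝ) ≤ y / q := by rw [le_div_iff₀ hq0]; exact hyq
  have hyqd2 : y / q ≤ (1 + e) * h := by
    rw [div_le_iff₀ hq0]
    have : (h + 1 : ℝ) * q ≤ (1 + e) * h * q := by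
      refine mul_le_mul_of_nonneg_right ?_ hq0.le
      linarith
    linarith
  have hMlow : 2 * c * h / ((1 + e) * L) ≤ Mt c y q := by
    rw [hMt]
    have h3 : 2 * c * h ≤ c * gf q * (y / q) := by
      have h4 : 2 * c ≤ c * gf q := by
        have := mul_le_mul_of_nonneg_left hg1 hc.le
        linarith
      exact mul_le_mul h4 hyqd1 hh0.le (by linarith [mul_pos hc (show (0 : ℝ) < 2 by norm_num)])
    exact div_le_div₀ (by positivity) h3 hlypos hly2
  have hMup : Mt c y q ≤ (1 + e) ^ 2 * (2 * c * h / L) := by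
    rw [hMt]
    have h3 : c * gf q * (y / q) ≤ (1 + e) ^ 2 * (2 * c * h) := by
      have h4 : c * gf q ≤ c * (2 * (1 + e)) := mul_le_mul_of_nonneg_left hg2 hc.le
      calc c * gf q * (y / q) ≤ c * (2 * (1 + e)) * ((1 + e) * h) :=
            mul_le_mul h4 hyqd2 (by positivity) (by positivity)
        _ = (1 + e) ^ 2 * (2 * c * h) := by ring
    calc c * gf q * (y / q) / Real.log y ≤ (1 + e) ^ 2 * (2 * c * h) / L :=
          div_le_div₀ (by positivity) h3 hLpos hly1
      _ = _ := by ring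
  rw [abs_lt] at hmain
  have hMpos : 0 < Mt c y q := lt_of_lt_of_le (by positivity) hMlow
  constructor
  · have : (1 - e) * (2 * c * h / ((1 + e) * L)) ≤ (1 - e) * Mt c y q :=
      mul_le_mul_of_nonneg_left hMlow (by linarith)
    linarith [hmain.1]
  · have : (1 + e) * Mt c y q ≤ (1 + e) * ((1 + e) ^ 2 * (2 * c * h / L)) :=
      mul_le_mul_of_nonneg_left hMup (by linarith)
    calc (Nrow a h q : ℝ) ≤ (1 + e) * Mt c y q := by linarith [hmain.2]
      _ ≤ _ := this
      _ = _ := by ring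

/-- analytic bounds for one column -/
lemma col_bounds (hc : 0 < c) (he : 0 < e) (he1 : e ≤ 1 / 50) (hA : 0 < A)
    (hB0 : 0 < B) (hU : Unif A B e c X) (hB : Big A B X e z h)
    {a s : ℕ} (ha2 : 2 ∣ a) (haP : PP z ∣ a ^ 2 + 1) (ha : a < 2 * 64 ^ z)
    (hs : s ∈ SS a h) :
    (1 - 8 * e) * (2 * c * 64 ^ z / Real.log (2 * 64 ^ z)) ≤ Ccol a (2 * 64 ^ z) s ∧
    (Ccol a (2 * 64 ^ z) s : ℝ) ≤
      (1 + e) * (1 + 6 * e) * (2 * c * 64 ^ z / Real.log (2 * 64 ^ z)) := by
  obtain ⟨hz, hX, h1, E1, E2, E3, E5, E6, E7, E8, E9⟩ := hB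
  set L := Real.log (2 * 64 ^ z) with hL
  have hz' : (13 : ℝ) ≤ z := by exact_mod_cast hz
  have hlz : 0 < Real.log z := Real.log_pos (by linarith)
  have hLpos : 0 < L := pos_of_mul_pos_right (by linarith : 0 < e * L) he.le
  have hh0 : (0 : ℝ) < h := pos_of_mul_pos_right (by linarith : 0 < e * (h : ℝ)) he.le
  have hh1 : 1 ≤ h := by exact_mod_cast hh0
  have hh1' : (1 : ℝ) ≤ h := by exact_mod_cast hh1
  unfold SS at hs
  rw [mem_filter, mem_Ioc] at hs
  obtain ⟨⟨hs0, hsh⟩, hcop⟩ := hs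
  have hs0' : (1 : ℝ) ≤ s := by exact_mod_cast hs0
  have hsh' : (s : ℝ) ≤ h := by exact_mod_cast hsh
  have ha' : (a : ℝ) < 2 * 64 ^ z := by exact_mod_cast ha
  have ha0 : (0 : ℝ) ≤ a := Nat.cast_nonneg a
  have h64 : (1 : ℝ) ≤ 64 ^ z := one_le_pow₀ (by norm_num)
  have hcop2 : Nat.Coprime (a ^ 2 + 1) (2 * s) := by
    have hodd : Nat.Coprime 2 (a ^ 2 + 1) := by
      obtain ⟨b, rfl⟩ := ha2
      rw [Nat.coprime_two_left, Nat.odd_iff]
      have : (2 * b) ^ 2 + 1 = 2 * (2 * b ^ 2) + 1 := by ring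
      rw [this]
      omega
    exact (Nat.Coprime.mul_left hodd hcop).symm
  set T : ℕ := 2 * 64 ^ z with hT
  have hTc : (T : ℝ) = 2 * 64 ^ z := by rw [hT]; push_cast; ring
  have hcol := col_eq (a := a) (T := T) (s := s) ha2 hs0
  set y1 : ℝ := ((a + s * T : ℕ) : ℝ) with hy1
  set y2 : ℝ := ((a + s * (2 * T) : ℕ) : ℝ) with hy2
  have hy1' : y1 = a + s * (2 * 64 ^ z) := by rw [hy1]; push_cast [hTc]; ring
  have hy2' : y2 = a + s * (4 * 64 ^ z) := by rw [hy2]; push_cast [hTc]; ring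
  have hdiff : y2 - y1 = 2 * s * 64 ^ z := by rw [hy1', hy2']; ring
  have hs64 : (64 : ℝ) ^ z ≤ s * 64 ^ z := le_mul_of_one_le_left (by positivity) hs0'
  have hy1T : 2 * s * 64 ^ z ≤ y1 := by rw [hy1']; linarith
  have hy12 : y1 ≤ y2 := by linarith
  have hy1T2 : 2 * 64 ^ z ≤ y1 := by linarith
  have hy2u : y2 ≤ 3 * (2 * s * 64 ^ z) := by rw [hy2']; linarith
  have hy2h : y2 ≤ 3 * h * (2 * 64 ^ z) := by
    refine hy2u.trans ?_
    have : (s : ℝ) * 64 ^ z ≤ h * 64 ^ z := mul_le_mul_of_nonneg_right hsh' (by positivity)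
    linarith
  have hy1pos : 0 < y1 := by linarith
  have hy2pos : 0 < y2 := by linarith
  have hl1 : L ≤ Real.log y1 := Real.log_le_log (by positivity) hy1T2
  have hl12 : Real.log y1 ≤ Real.log y2 := Real.log_le_log hy1pos hy12
  have hl2 : Real.log y2 ≤ (1 + e) * L := by
    have h3 := Real.log_le_log hy2pos hy2h
    rw [Real.log_mul (by positivity) (by positivity)] at h3
    linarith
  have hl1pos : 0 < Real.log y1 := by linarith
  have hl2pos : 0 < Real.log y2 := by linarith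
  have hL5 := logT_le hz
  have hlt2 := Real.log_two_gt_d9
  have hpw : ∀ y : ℝ, 0 < Real.log y → Real.log y ≤ (1 + e) * L →
      Real.log y ^ A ≤ 64 ^ z := by
    intro y h3 h4
    have heL : e * L ≤ 1 * L := mul_le_mul_of_nonneg_right (by linarith) hLpos.le
    have h5 : Real.log y ≤ 10 * z := by linarith
    exact (Real.rpow_le_rpow h3.le h5 hA.le).trans E8
  have hcond : ∀ y : ℝ, 0 < Real.log y → Real.log y ≤ (1 + e) * L → 2 * s * 64 ^ z ≤ y →
      (((2 * s : ℕ)) : ℝ) ≤ y / Real.log y ^ A := by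
    intro y h3 h4 h5
    rw [le_div_iff₀ (by positivity)]
    refine le_trans ?_ h5
    push_cast
    exact mul_le_mul_of_nonneg_left (hpw y h3 h4) (by positivity)
  have hsmall : ∀ y : ℝ, L ≤ Real.log y → (((2 * s : ℕ)) : ℝ) ≤ Real.log y ^ B := by
    intro y h3
    have h4 : (z : ℝ) ^ B ≤ Real.log y ^ B :=
      Real.rpow_le_rpow (by linarith) ((z_le_logT z).trans h3) hB0.le
    push_cast
    linarith
  have hm1 := hU y1 (hX.trans hy1T2) (2 * s) a (by omega) hcop2 (Or.inl (hsmall y1 hl1))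
    (hcond y1 hl1pos (hl12.trans hl2) hy1T)
  have hm2 := hU y2 (hX.trans (hy1T2.trans hy12)) (2 * s) a (by omega) hcop2
    (Or.inl (hsmall y2 (hl1.trans hl12))) (hcond y2 hl2pos hl2 (hy1T.trans hy12))
  -- the density
  have h3h : 3 * (h : ℝ) ≤ 2 * 64 ^ z := by
    have h3 : Real.log (3 * h) ≤ Real.log (2 * 64 ^ z) := by
      rw [← hL]
      have heL : e * L ≤ 1 * L := mul_le_mul_of_nonneg_right (by linarith) hLpos.le
      linarith
    exact (Real.log_le_log_iff (by positivity) (by positivity)).1 h3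
  have hg := gf_bounds (q := 2 * s) (z := z) (by omega) (by omega) (dvd_mul_right _ _) (by
    intro p hp h4
    by_contra hle
    push Not at hle
    have hpp := Nat.prime_of_mem_primeFactors hp
    have h5 : p ∣ a ^ 2 + 1 := (dvd_PP hpp h4 hle).trans haP
    have h6 := Nat.dvd_gcd h5 (Nat.dvd_of_mem_primeFactors hp)
    rw [hcop2] at h6
    exact hpp.one_lt.ne' (Nat.dvd_one.1 h6))
  have hlq : Real.log ((2 * s : ℕ) : ℝ) ≤ 5 * z := by
    have h3 : Real.log ((2 * s : ℕ) : ℝ) ≤ L := by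
      refine Real.log_le_log (by positivity) ?_
      push_cast
      linarith
    linarith
  have hg2 : gf (2 * s) ≤ 2 * (1 + e) := by
    refine hg.2.trans (mul_le_mul_of_nonneg_left (le_trans ?_ E3) (by norm_num))
    refine Real.exp_le_exp.2 ?_
    rw [div_le_div_iff₀ (by linarith) hlz]
    have : 4 * (Real.log ((2 * s : ℕ) : ℝ) / Real.log z) * Real.log z =
        4 * Real.log ((2 * s : ℕ) : ℝ) := by
      field_simp
    rw [this]
    linarith
  have hg1 := hg.1
  set κ : ℝ := c * gf (2 * s) / ((2 * s : ℕ) : ℝ) with hκ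
  have h2s : (0 : ℝ) < ((2 * s : ℕ) : ℝ) := by
    push_cast
    linarith
  have hκpos : 0 < κ := by
    rw [hκ]
    have : 0 < gf (2 * s) := by linarith
    positivity
  have hMt : ∀ y : ℝ, Mt c y (2 * s) = κ * (y / Real.log y) := by
    intro y
    unfold Mt
    rw [hκ]
    field_simp
  set w : ℝ := 2 * s * 64 ^ z with hw
  have hwpos : 0 < w := by rw [hw]; positivity
  have hκw : κ * w = c * gf (2 * s) * 64 ^ z := by
    rw [hκ, hw]
    push_cast
    field_simp
  have hκw1 : 2 * c * 64 ^ z ≤ κ * w := by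
    rw [hκw]
    refine mul_le_mul_of_nonneg_right ?_ (by positivity)
    have := mul_le_mul_of_nonneg_left hg1 hc.le
    linarith
  have hκw2 : κ * w ≤ (1 + e) * (2 * c * 64 ^ z) := by
    rw [hκw]
    have : c * gf (2 * s) ≤ c * (2 * (1 + e)) := mul_le_mul_of_nonneg_left hg2 hc.le
    calc c * gf (2 * s) * 64 ^ z ≤ c * (2 * (1 + e)) * 64 ^ z :=
          mul_le_mul_of_nonneg_right this (by positivity)
      _ = _ := by ring
  rw [hMt] at hm1 hm2
  rw [abs_lt] at hm1 hm2
  set u1 := y1 / Real.log y1 with hu1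
  set u2 := y2 / Real.log y2 with hu2
  have hCc : (Ccol a T s : ℝ) = P1 y2 (2 * s) a - P1 y1 (2 * s) a := by
    rw [hcol]
    push_cast
    ring
  have hsum : u1 + u2 ≤ 6 * (w / L) := by
    have h3 : u1 ≤ 3 * w / L := div_le_div₀ (by positivity) (hy12.trans hy2u) hLpos hl1
    have h4 : u2 ≤ 3 * w / L := div_le_div₀ (by positivity) hy2u hLpos (hl1.trans hl12)
    have h5 : 6 * (w / L) = 3 * w / L + 3 * w / L := by ring
    linarith
  have hup : u2 - u1 ≤ w / L := by
    have h3 : y1 / Real.log y2 ≤ u1 := div_le_div_of_nonneg_left hy1pos.le hl1pos hl12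
    have h4 : u2 - y1 / Real.log y2 = w / Real.log y2 := by
      rw [hu2, ← sub_div, hdiff]
    have h5 : w / Real.log y2 ≤ w / L :=
      div_le_div_of_nonneg_left hwpos.le hLpos (hl1.trans hl12)
    linarith
  have hlow : (1 - 2 * e) * (w / L) ≤ u2 - u1 := by
    have h3 : y1 * (Real.log y2 - Real.log y1) ≤ w := by
      have h4 : Real.log (y2 / y1) ≤ y2 / y1 - 1 :=
        Real.log_le_sub_one_of_pos (by positivity)
      rw [Real.log_div hy2pos.ne' hy1pos.ne'] at h4
      have h5 := mul_le_mul_of_nonneg_left h4 hy1pos.le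
      have h6 : y1 * (y2 / y1 - 1) = y2 - y1 := by
        field_simp
      linarith
    have h4 : u2 - u1 = w / Real.log y2 -
        y1 * (Real.log y2 - Real.log y1) / (Real.log y1 * Real.log y2) := by
      rw [hu1, hu2, ← hdiff]
      field_simp
      ring
    have h5 : y1 * (Real.log y2 - Real.log y1) / (Real.log y1 * Real.log y2) ≤
        w / (L * Real.log y2) :=
      div_le_div₀ hwpos.le h3 (by positivity) (mul_le_mul_of_nonneg_right hl1 hl2pos.le)
    have h6 : w / (L * Real.log y2) ≤ e * (w / Real.log y2) := by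
      have h7 : w / (L * Real.log y2) = 1 / L * (w / Real.log y2) := by
        field_simp
      rw [h7]
      refine mul_le_mul_of_nonneg_right ?_ (by positivity)
      rw [div_le_iff₀ hLpos]
      exact E2
    have h7 : w / ((1 + e) * L) ≤ w / Real.log y2 :=
      div_le_div_of_nonneg_left hwpos.le hl2pos hl2
    have h8 : (1 - 2 * e) * (w / L) ≤ (1 - e) * (w / ((1 + e) * L)) := by
      have h9 : (1 - e) * (w / ((1 + e) * L)) = (1 - e) / (1 + e) * (w / L) := by
        field_simp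
      rw [h9]
      refine mul_le_mul_of_nonneg_right ?_ (by positivity)
      rw [le_div_iff₀ (by linarith)]
      exact aux1 e
    have h10 : (1 - e) * (w / ((1 + e) * L)) ≤ (1 - e) * (w / Real.log y2) :=
      mul_le_mul_of_nonneg_left h7 (by linarith)
    linarith
  have hwL : 0 < w / L := by positivity
  constructor
  · have h3 : κ * ((1 - 8 * e) * (w / L)) ≤ Ccol a T s := by
      have h4 : κ * ((1 - 8 * e) * (w / L)) ≤ κ * ((u2 - u1) - e * (u1 + u2)) := by
        refine mul_le_mul_of_nonneg_left ?_ hκpos.le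
        have h5 := mul_le_mul_of_nonneg_left hsum he.le
        have h6 : (1 - 8 * e) * (w / L) = (1 - 2 * e) * (w / L) - e * (6 * (w / L)) := by ring
        linarith
      rw [hCc]
      have h7 : κ * ((u2 - u1) - e * (u1 + u2)) = (κ * u2 - e * (κ * u2)) -
          (κ * u1 + e * (κ * u1)) := by ring
      linarith [hm1.2, hm2.1]
    refine le_trans ?_ h3
    have h4 : κ * ((1 - 8 * e) * (w / L)) = (1 - 8 * e) * (κ * w / L) := by ring
    rw [h4]
    refine mul_le_mul_of_nonneg_left ?_ (by linarith)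
    exact div_le_div_of_nonneg_right hκw1 hLpos.le
  · have h3 : (Ccol a T s : ℝ) ≤ κ * ((1 + 6 * e) * (w / L)) := by
      have h4 : κ * ((u2 - u1) + e * (u1 + u2)) ≤ κ * ((1 + 6 * e) * (w / L)) := by
        refine mul_le_mul_of_nonneg_left ?_ hκpos.le
        have h5 := mul_le_mul_of_nonneg_left hsum he.le
        have h6 : (1 + 6 * e) * (w / L) = w / L + e * (6 * (w / L)) := by ring
        linarith
      rw [hCc]
      have h7 : κ * ((u2 - u1) + e * (u1 + u2)) = (κ * u2 + e * (κ * u2)) -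
          (κ * u1 - e * (κ * u1)) := by ring
      linarith [hm1.1, hm2.2]
    refine h3.trans ?_
    have h4 : κ * ((1 + 6 * e) * (w / L)) = (1 + 6 * e) * (κ * w / L) := by ring
    have h5 : (1 + e) * (1 + 6 * e) * (2 * c * 64 ^ z / L) =
        (1 + 6 * e) * ((1 + e) * (2 * c * 64 ^ z) / L) := by ring
    rw [h4, h5]
    refine mul_le_mul_of_nonneg_left ?_ (by linarith)
    exact div_le_div_of_nonneg_right hκw2 hLpos.le

end Pool.Agent.MP484c84AP
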