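import Pool.Agent.Lib.MP484c84AP.Compare

/-!
# Failure of the uniform asymptotic in arithmetic progressions
-/

open Finset Filter Topology MeasureTheory

namespace Pool.Agent.MP484c84AP

lemma V_ge : ∃ C : ℝ, ∀ k : ℕ, 2 ≤ k → Real.exp (-C - 7 / 10 * Real.log (Real.log k)) ≤ V k := by
  obtain ⟨C, hC0, hC⟩ := sum_two_div
  refine ⟨7 / 10 * (C / Real.log 2 - Real.log (Real.log 2)), fun k hk => ?_⟩
  have h1 := (abs_le.1 (hC 2 k le_rfl hk)).2
  have h2 : V k = ∏ p ∈ Ioc 2 k with p.Prime ∧ p % 4 = 1, (1 - 1 / (p : ℝ)) := by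
    rw [V_split hk]
    have : V 2 = 1 := by
      unfold V
      refine prod_eq_one fun p hp => ?_
      exfalso
      rw [mem_filter, mem_Ioc] at hp
      obtain ⟨⟨h0, h2⟩, hp1, h4⟩ := hp
      have := hp1.two_le
      omega
    rw [this, one_mul]
  have h3 : Real.exp (-(7 / 10 * ∑ p ∈ Ioc 2 k with p.Prime ∧ p % 4 = 1, 2 / (p : ℝ))) ≤ V k := by
    rw [h2, mul_sum, ← sum_neg_distrib, Real.exp_sum]
    refine prod_le_prod (fun p _ => (Real.exp_pos _).le) fun p hp => ?_
    rw [mem_filter, mem_Ioc] at hp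
    have hp5 : 5 ≤ p := by
      have := hp.2.1.two_le
      omega
    have hp5' : (5 : ℝ) ≤ p := by exact_mod_cast hp5
    have h4 : 1 / (p : ℝ) ≤ 1 / 5 := one_div_le_one_div_of_le (by norm_num) hp5'
    have h5 := (log_ineq (x := 1 / (p : ℝ)) (by positivity) (by linarith)).2
    have h6 : 0 < 1 - 1 / (p : ℝ) := one_sub_pos hp.2.1
    rw [← Real.exp_log h6]
    refine Real.exp_le_exp.2 ?_
    have h7 : 2 * (1 / (p : ℝ)) ^ 2 ≤ 2 / 5 * (1 / (p : ℝ)) := by
      have h8 : 0 < 1 / (p : ℝ) := by positivity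
      nlinarith
    have h8 : 7 / 10 * (2 / (p : ℝ)) = 7 / 5 * (1 / (p : ℝ)) := by ring
    rw [h8]
    linarith
  refine le_trans (Real.exp_le_exp.2 ?_) h3
  push_cast at h1
  linarith

lemma tendsto_V_log : Tendsto (fun k : ℕ => V k * Real.log k) atTop atTop := by
  obtain ⟨C, hC⟩ := V_ge
  have h1 : Tendsto (fun k : ℕ => Real.log (Real.log k)) atTop atTop :=
    Real.tendsto_log_atTop.comp (Real.tendsto_log_atTop.comp tendsto_natCast_atTop_atTop)
  have h2 : Tendsto (fun k : ℕ => Real.exp (-C + 3 / 10 * Real.log (Real.log k))) atTop atTop :=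
    Real.tendsto_exp_atTop.comp
      (tendsto_atTop_add_const_left _ _ (h1.const_mul_atTop (by norm_num)))
  refine tendsto_atTop_mono' _ ?_ h2
  filter_upwards [eventually_ge_atTop 3] with k hk
  have hk' : (3 : ℝ) ≤ k := by exact_mod_cast hk
  have hl : 0 < Real.log k := Real.log_pos (by linarith)
  calc Real.exp (-C + 3 / 10 * Real.log (Real.log k)) =
        Real.exp (-C - 7 / 10 * Real.log (Real.log k)) * Real.exp (Real.log (Real.log k)) := by
        rw [← Real.exp_add]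
        congr 1
        ring
    _ = Real.exp (-C - 7 / 10 * Real.log (Real.log k)) * Real.log k := by rw [Real.exp_log hl]
    _ ≤ V k * Real.log k := mul_le_mul_of_nonneg_right (hC k (by omega)) hl.le

lemma eventually_rpow_le {a : ℝ} : ∀ᶠ x : ℝ in atTop, x ^ a ≤ 64 ^ x := by
  have h1 := tendsto_rpow_mul_exp_neg_mul_atTop_nhds_zero a 1 one_pos
  have h2 := h1.eventually (gt_mem_nhds (show (0 : ℝ) < 1 by norm_num))
  filter_upwards [h2, eventually_ge_atTop (0 : ℝ)] with x hx hx0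
  have h3 : x ^ a * Real.exp (-1 * x) < 1 := hx
  have h4 : x ^ a ≤ Real.exp x := by
    have h5 : Real.exp (-1 * x) * Real.exp x = 1 := by
      rw [← Real.exp_add]
      simp
    have h6 := mul_le_mul_of_nonneg_right h3.le (Real.exp_pos x).le
    rw [mul_assoc, h5, mul_one, one_mul] at h6
    exact h6
  refine h4.trans ?_
  rw [Real.rpow_def_of_pos (by norm_num)]
  refine Real.exp_le_exp.2 ?_
  have h7 : 1 ≤ Real.log 64 := by
    rw [Real.le_log_iff_exp_le (by norm_num)]
    have := Real.exp_one_lt_d9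
    linarith
  nlinarith

lemma eventually_big {A B α β X e : ℝ} (hA : 0 < A) (hα : A < α) (he : 0 < e) (hβ : 0 < β)
    (hβB : β < B) :
    ∀ᶠ z : ℕ in atTop, ∀ h : ℕ, (z : ℝ) ^ α ≤ h → (h : ℝ) ≤ (z : ℝ) ^ β → Big A B X e z h := by
  have hcast : Tendsto (fun n : ℕ => (n : ℝ)) atTop atTop := tendsto_natCast_atTop_atTop
  have e1 : ∀ᶠ z : ℕ in atTop, X ≤ (z : ℝ) := hcast.eventually (eventually_ge_atTop X)
  have e2 : ∀ᶠ z : ℕ in atTop, 1 / e ≤ (z : ℝ) ^ α :=
    ((tendsto_rpow (show 0 < α by linarith)).comp hcast).eventually (eventually_ge_atTop _)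
  have e3 : ∀ᶠ z : ℕ in atTop, (Real.log 3 + β * Real.log z) / z < e := by
    have h1 : Tendsto (fun x : ℝ => (Real.log 3 + β * Real.log x) / x) atTop (𝓝 0) := by
      have h2 : Tendsto (fun x : ℝ => Real.log 3 / x) atTop (𝓝 0) :=
        tendsto_const_nhds.div_atTop tendsto_id
      have h3 : Tendsto (fun x : ℝ => Real.log x / x) atTop (𝓝 0) := by
        have := Real.isLittleO_log_id_atTop.tendsto_div_nhds_zero
        simpa using this
      have h4 := h2.add (h3.const_mul β)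
      rw [mul_zero, add_zero] at h4
      refine h4.congr fun x => ?_
      ring
    exact (h1.comp hcast).eventually (gt_mem_nhds he)
  have e4 : ∀ᶠ z : ℕ in atTop, 1 / e ≤ (z : ℝ) := hcast.eventually (eventually_ge_atTop _)
  have e5 : ∀ᶠ z : ℕ in atTop, Real.exp (20 / Real.log z) < 1 + e := by
    have h1 : Tendsto (fun x : ℝ => Real.exp (20 / Real.log x)) atTop (𝓝 1) := by
      have h2 : Tendsto (fun x : ℝ => 20 / Real.log x) atTop (𝓝 0) :=
        tendsto_const_nhds.div_atTop Real.tendsto_log_atTop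
      have h3 := (Real.continuous_exp.tendsto 0).comp h2
      rw [Real.exp_zero] at h3
      exact h3
    exact (h1.comp hcast).eventually (gt_mem_nhds (by linarith))
  have e6 : ∀ᶠ z : ℕ in atTop, 8 / e ≤ V z * Real.log z :=
    tendsto_V_log.eventually (eventually_ge_atTop _)
  have e7 : ∀ᶠ z : ℕ in atTop, (10 : ℝ) ^ A ≤ (z : ℝ) ^ (α - A) :=
    ((tendsto_rpow (show 0 < α - A by linarith)).comp hcast).eventually (eventually_ge_atTop _)
  have e8 : ∀ᶠ z : ℕ in atTop, (z : ℝ) ^ α ≤ 64 ^ (z : ℝ) := hcast.eventually eventually_rpow_le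
  have e9 : ∀ᶠ z : ℕ in atTop, (4 : ℝ) ≤ (z : ℝ) ^ (B - β) :=
    ((tendsto_rpow (show 0 < B - β by linarith)).comp hcast).eventually (eventually_ge_atTop _)
  filter_upwards [e1, e2, e3, e4, e5, e6, e7, e8, e9, eventually_ge_atTop 13] with z f1 f2 f3 f4 f5
    f6 f7 f8 f9 hz
  intro h hh1 hh2
  have hz' : (13 : ℝ) ≤ z := by exact_mod_cast hz
  have hz0 : (0 : ℝ) < z := by linarith
  have hlz : 0 < Real.log z := Real.log_pos (by linarith)
  have hzα : 0 < (z : ℝ) ^ α := Real.rpow_pos_of_pos hz0 _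
  have hh0 : (0 : ℝ) < h := by linarith
  have hLz : (z : ℝ) ≤ Real.log (2 * 64 ^ z) := by
    rw [Real.log_mul (by norm_num) (by positivity), Real.log_pow]
    have h7 : 1 ≤ Real.log 64 := by
      rw [Real.le_log_iff_exp_le (by norm_num)]
      have := Real.exp_one_lt_d9
      linarith
    have h8 : 0 < Real.log 2 := Real.log_pos (by norm_num)
    nlinarith
  have hz64 : (z : ℝ) ≤ 64 ^ z := by
    have : z < 64 ^ z := Nat.lt_pow_self (by norm_num)
    exact_mod_cast this.le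
  have h10 : (10 * (z : ℝ)) ^ A ≤ (z : ℝ) ^ α := by
    rw [Real.mul_rpow (by norm_num) hz0.le]
    calc (10 : ℝ) ^ A * (z : ℝ) ^ A ≤ (z : ℝ) ^ (α - A) * (z : ℝ) ^ A :=
          mul_le_mul_of_nonneg_right f7 (by positivity)
      _ = (z : ℝ) ^ α := by
          rw [← Real.rpow_add hz0]
          congr 1
          ring
  refine ⟨hz, ?_, ?_, ?_, ?_, f5.le, ?_, ?_, h10.trans hh1, ?_, ?_⟩
  · have : (0 : ℝ) ≤ 64 ^ z := by positivity
    linarith
  · have h3 : 1 / e ≤ h := f2.trans hh1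
    rw [div_le_iff₀ he] at h3
    linarith
  · rw [Real.log_mul (by norm_num) hh0.ne']
    have h3 : Real.log h ≤ β * Real.log z := by
      rw [← Real.log_rpow hz0]
      exact Real.log_le_log hh0 hh2
    rw [div_lt_iff₀ hz0] at f3
    have h4 := mul_le_mul_of_nonneg_left hLz he.le
    linarith
  · rw [div_le_iff₀ he] at f4
    have h4 := mul_le_mul_of_nonneg_left hLz he.le
    linarith
  · -- `2 * 2 ^ z ≤ e * (64 ^ z * V z)`
    have h3 : 8 ≤ e * (V z * Real.log z) := by
      rw [div_le_iff₀ he] at f6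
      linarith
    have h4 : Real.log z ≤ 2 ^ z := by
      have h5 : Real.log z ≤ z := (Real.log_le_sub_one_of_pos hz0).trans (by linarith)
      have h6 : z < 2 ^ z := Nat.lt_two_pow_self
      have h7 : (z : ℝ) < 2 ^ z := by exact_mod_cast h6
      linarith
    have hV := V_pos z
    have h5 : 8 ≤ e * V z * 2 ^ z := by
      calc (8 : ℝ) ≤ e * V z * Real.log z := by linarith
        _ ≤ e * V z * 2 ^ z := mul_le_mul_of_nonneg_left h4 (by positivity)
    have h6 : (64 : ℝ) ^ z = 2 ^ z * 32 ^ z := by rw [← mul_pow]; norm_num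
    have h7 : (2 : ℝ) ^ z ≤ 32 ^ z := pow_le_pow_left₀ (by norm_num) (by norm_num) z
    calc (2 : ℝ) * 2 ^ z ≤ 8 * 32 ^ z := by
          have : (0 : ℝ) < 2 ^ z := by positivity
          linarith
      _ ≤ e * V z * 2 ^ z * 32 ^ z := mul_le_mul_of_nonneg_right h5 (by positivity)
      _ = e * (64 ^ z * V z) := by rw [h6]; ring
  · rw [div_le_iff₀ he] at f6
    linarith
  · rw [← Real.rpow_natCast]
    exact h10.trans f8
  · have h3 : 1 ≤ (z : ℝ) ^ β := Real.one_le_rpow (by linarith) hβ.le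
    calc 2 * ((h : ℝ) + 1) ≤ 4 * (z : ℝ) ^ β := by linarith
      _ ≤ (z : ℝ) ^ (B - β) * (z : ℝ) ^ β := mul_le_mul_of_nonneg_right f9 (by positivity)
      _ = (z : ℝ) ^ B := by
          rw [← Real.rpow_add hz0]
          congr 1
          ring

/-- the uniform asymptotic gives the product density at all scales -/
theorem base {A B : ℝ} (hA : 0 < A) (hB0 : 0 < B)
    (H : ∀ e : ℝ, 0 < e → ∃ c : ℝ, 0 < c ∧ ∃ X : ℝ, Unif A B e c X) {α β : ℝ} (hα : A < α)
    (hαβ : α < β) (hβB : β + 1 < B) : Tendsto (F α β) atTop (𝓝 (β - α)) := by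
  rw [Metric.tendsto_atTop']
  intro ε hε
  have hab : 0 < β - α := by linarith
  set e : ℝ := min (1 / 50) (ε / (44 * (β - α))) with he_def
  have he : 0 < e := lt_min (by norm_num) (by positivity)
  have he1 : e ≤ 1 / 50 := min_le_left _ _
  have he2 : e ≤ ε / (44 * (β - α)) := min_le_right _ _
  obtain ⟨c, hc, X, hU⟩ := H e he
  have hbig := eventually_big (A := A) (B := B) (α := (A + α) / 2) (β := β + 1) (X := X) hA
    (by linarith) he (by linarith) hβB
  have hfloor : Tendsto (fun z : ℝ => ⌊z⌋₊) atTop atTop := tendsto_nat_floor_atTop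
  have e1 := hfloor.eventually hbig
  have e2 : ∀ᶠ z : ℝ in atTop, 2 ≤ z ^ ((α - A) / 2) :=
    (tendsto_rpow (by linarith)).eventually (eventually_ge_atTop _)
  have e3 : ∀ᶠ z : ℝ in atTop, 1 / e ≤ z ^ α :=
    (tendsto_rpow (by linarith)).eventually (eventually_ge_atTop _)
  have e4 : ∀ᶠ z : ℝ in atTop, (2 : ℝ) ^ (β + 1) ≤ z := eventually_ge_atTop _
  have hkey : ∀ᶠ z : ℝ in atTop, |F α β z - (β - α)| ≤ 22 * e * (β - α) := by
    filter_upwards [e1, e2, e3, e4, eventually_ge_atTop (2 : ℝ)] with z f1 f2 f3 f4 hz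
    have hz0 : (0 : ℝ) < z := by linarith
    have hl := logz_pos hz
    set n : ℕ := ⌊z⌋₊ with hn
    have hnz : (n : ℝ) ≤ z := Nat.floor_le hz0.le
    have hn1 : z < n + 1 := Nat.lt_floor_add_one z
    have hn1' : (1 : ℝ) ≤ n := by
      have : 1 ≤ n := Nat.le_floor (by push_cast; linarith)
      exact_mod_cast this
    have hV := V_pos n
    have hzα : 0 < z ^ α := Real.rpow_pos_of_pos hz0 _
    have hle : z ^ α ≤ z ^ β := Real.rpow_le_rpow_of_exponent_le (by linarith) hαβ.le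
    have hβup : z ^ β ≤ (n : ℝ) ^ (β + 1) := by
      -- `z ^ (β + 1) ≤ (2 n) ^ (β + 1)`
      have h1 : z ^ (β + 1) ≤ (2 * (n : ℝ)) ^ (β + 1) :=
        Real.rpow_le_rpow hz0.le (by linarith) (by linarith)
      rw [Real.mul_rpow (by norm_num) (by positivity), Real.rpow_add hz0, Real.rpow_one] at h1
      have h2 : z ^ β * z ≤ (n : ℝ) ^ (β + 1) * z := by
        calc z ^ β * z ≤ 2 ^ (β + 1) * (n : ℝ) ^ (β + 1) := h1
          _ ≤ z * (n : ℝ) ^ (β + 1) := mul_le_mul_of_nonneg_right f4 (by positivity)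
          _ = _ := mul_comm _ _
      exact le_of_mul_le_mul_right h2 hz0
    have hpt : ∀ t ∈ Set.Icc (z ^ α) (z ^ β),
        (1 - 22 * e) * V n * t⁻¹ ≤ (Sc ⌊t⌋₊ n : ℝ) / t ^ 2 ∧
        (Sc ⌊t⌋₊ n : ℝ) / t ^ 2 ≤ (1 + 22 * e) * V n * t⁻¹ := by
      intro t ht
      have ht0 : 0 < t := hzα.trans_le ht.1
      have hft : (⌊t⌋₊ : ℝ) ≤ t := Nat.floor_le ht0.le
      have hft1 : t < ⌊t⌋₊ + 1 := Nat.lt_floor_add_one t
      have hte : 1 ≤ e * t := by
        have h1 : 1 / e ≤ t := f3.trans ht.1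
        rw [div_le_iff₀ he] at h1
        linarith
      have h1 : (n : ℝ) ^ ((A + α) / 2) ≤ (⌊t⌋₊ : ℝ) := by
        have h2 : (n : ℝ) ^ ((A + α) / 2) ≤ z ^ ((A + α) / 2) :=
          Real.rpow_le_rpow (by positivity) hnz (by linarith)
        have h3 : 2 * z ^ ((A + α) / 2) ≤ z ^ α := by
          calc 2 * z ^ ((A + α) / 2) ≤ z ^ ((α - A) / 2) * z ^ ((A + α) / 2) :=
                mul_le_mul_of_nonneg_right f2 (by positivity)
            _ = z ^ α := by
                rw [← Real.rpow_add hz0]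
                congr 1
                ring
        have h4 : 1 ≤ z ^ ((A + α) / 2) := Real.one_le_rpow (by linarith) (by linarith)
        linarith [ht.1]
      have h2 : (⌊t⌋₊ : ℝ) ≤ (n : ℝ) ^ (β + 1) := hft.trans (ht.2.trans hβup)
      have hB := f1 ⌊t⌋₊ h1 h2
      have hcmp := abs_le.1 (compare hc he he1 hA hB0 hU hB)
      have hf0 : (0 : ℝ) ≤ ⌊t⌋₊ := Nat.cast_nonneg _
      have ht2 : 0 < t ^ 2 := by positivity
      constructor
      · rw [le_div_iff₀ ht2]
        have h3 : (1 - 22 * e) * V n * t⁻¹ * t ^ 2 = (1 - 22 * e) * t * V n := by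
          field_simp
        rw [h3]
        have h4 : (1 - 22 * e) * t ≤ (1 - 21 * e) * ⌊t⌋₊ := by
          have h5 : (1 - 21 * e) * (t - 1) ≤ (1 - 21 * e) * ⌊t⌋₊ :=
            mul_le_mul_of_nonneg_left (by linarith) (by linarith)
          have h6 : (1 - 21 * e) * (t - 1) = (1 - 22 * e) * t + (e * t - 1) + 21 * e := by ring
          linarith
        have h5 := mul_le_mul_of_nonneg_right h4 hV.le
        have h6 : (1 - 21 * e) * ⌊t⌋₊ * V n = ⌊t⌋₊ * V n - 21 * e * (⌊t⌋₊ * V n) := by ring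
        linarith [hcmp.1]
      · rw [div_le_iff₀ ht2]
        have h3 : (1 + 22 * e) * V n * t⁻¹ * t ^ 2 = (1 + 22 * e) * t * V n := by
          field_simp
        rw [h3]
        have h4 : (1 + 21 * e) * ⌊t⌋₊ ≤ (1 + 22 * e) * t := by
          have h5 : (1 + 21 * e) * ⌊t⌋₊ ≤ (1 + 21 * e) * t :=
            mul_le_mul_of_nonneg_left hft (by linarith)
          have h6 : (1 + 21 * e) * t ≤ (1 + 22 * e) * t :=
            mul_le_mul_of_nonneg_right (by linarith) ht0.le
          linarith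
        have h5 := mul_le_mul_of_nonneg_right h4 hV.le
        have h6 : (1 + 21 * e) * ⌊t⌋₊ * V n = ⌊t⌋₊ * V n + 21 * e * (⌊t⌋₊ * V n) := by ring
        linarith [hcmp.2]
    have hint : IntervalIntegrable (fun t => (Sc ⌊t⌋₊ n : ℝ) / t ^ 2) volume (z ^ α) (z ^ β) :=
      intble (mono_Sc_floor n) hzα hle
    have hinv : ∀ k : ℝ, IntervalIntegrable (fun t : ℝ => k * t⁻¹) volume (z ^ α) (z ^ β) := by
      intro k
      refine ContinuousOn.intervalIntegrable ?_
      refine ContinuousOn.mul continuousOn_const (ContinuousOn.inv₀ continuousOn_id ?_)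
      intro t ht
      rw [Set.uIcc_of_le hle] at ht
      exact (hzα.trans_le ht.1).ne'
    have hval : ∀ k : ℝ, ∫ t in (z ^ α)..(z ^ β), k * t⁻¹ = k * ((β - α) * Real.log z) := by
      intro k
      rw [intervalIntegral.integral_const_mul, integral_inv_of_pos hzα (hzα.trans_le hle),
        Real.log_div (Real.rpow_pos_of_pos hz0 _).ne' hzα.ne', Real.log_rpow hz0,
        Real.log_rpow hz0]
      ring
    have hD1 : (1 - 22 * e) * V n * ((β - α) * Real.log z) ≤ D (z ^ α) (z ^ β) n := by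
      rw [← hval]
      exact intervalIntegral.integral_mono_on hle (hinv _) hint fun t ht => (hpt t ht).1
    have hD2 : D (z ^ α) (z ^ β) n ≤ (1 + 22 * e) * V n * ((β - α) * Real.log z) := by
      rw [← hval]
      exact intervalIntegral.integral_mono_on hle hint (hinv _) fun t ht => (hpt t ht).2
    have hden : 0 < V n * Real.log z := by positivity
    unfold F
    rw [← hn, abs_le]
    constructor
    · rw [le_sub_iff_add_le, le_div_iff₀ hden]
      calc (-(22 * e * (β - α)) + (β - α)) * (V n * Real.log z) =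
            (1 - 22 * e) * V n * ((β - α) * Real.log z) := by ring
        _ ≤ _ := hD1
    · rw [sub_le_iff_le_add, div_le_iff₀ hden]
      calc D (z ^ α) (z ^ β) n ≤ (1 + 22 * e) * V n * ((β - α) * Real.log z) := hD2
        _ = _ := by ring
  obtain ⟨N, hN⟩ := eventually_atTop.1 hkey
  refine ⟨N, fun z hz => ?_⟩
  rw [Real.dist_eq]
  refine (hN z hz.le).trans_lt ?_
  have h1 : 44 * (β - α) * e ≤ ε := by
    rw [le_div_iff₀ (by positivity)] at he2
    linarith
  nlinarith

/-- **Main theorem.** -/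
theorem main {A : ℝ} (hA : 0 < A) : ∃ B : ℝ, A < B ∧ ∃ δ : ℝ, 0 < δ ∧ ∀ c : ℝ, 0 < c → ∀ X : ℝ,
    ∃ y : ℝ, X ≤ y ∧ ∃ q a : ℕ, 1 ≤ q ∧ Nat.Coprime (a ^ 2 + 1) q ∧
      ((q : ℝ) ≤ Real.log y ^ B ∨ y / Real.log y ^ B ≤ q) ∧
      (q : ℝ) ≤ y / Real.log y ^ A ∧ δ * Mt c y q ≤ |(P1 y q a : ℝ) - Mt c y q| := by
  obtain ⟨M, hM, hosc⟩ := oscillation A
  refine ⟨M + 1, by linarith, ?_⟩
  by_contra hcon
  push Not at hcon
  refine hosc fun α β hα hαβ hβM => base (B := M + 1) hA (by linarith) (fun e he => ?_) hα hαβ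
    (by linarith)
  obtain ⟨c, hc, X, hX⟩ := hcon e he
  exact ⟨c, hc, X, fun y hy q a h1 h2 h3 h4 => hX y hy q a h1 h2 h3 h4⟩

end Pool.Agent.MP484c84AP
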