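import Pool.Agent.Lib.MP484c84AP.Arith

/-!
# The matrix of the pairs `(s, q)` with `(a + s q) ^ 2 + 1` prime
-/

open Finset Filter Topology

namespace Pool.Agent.MP484c84AP

/-- row count -/
def Nrow (a h q : ℕ) : ℕ := ((Ioc 0 h).filter fun s => ((a + s * q) ^ 2 + 1).Prime).card

/-- column count -/
def Ccol (a T s : ℕ) : ℕ :=
  ((Ioc T (2 * T)).filter fun q => 2 ∣ q ∧ ((a + s * q) ^ 2 + 1).Prime).card

lemma double_count (a h T : ℕ) :
    ∑ q ∈ (Ioc T (2 * T)).filter (fun q => 2 ∣ q), Nrow a h q = ∑ s ∈ Ioc 0 h, Ccol a T s := by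
  unfold Nrow Ccol
  simp_rw [← filter_filter]
  exact sum_card_bipartiteAbove_eq_sum_card_bipartiteBelow
    (s := (Ioc T (2 * T)).filter fun q => 2 ∣ q) (t := Ioc 0 h)
    (fun q s => ((a + s * q) ^ 2 + 1).Prime)

lemma row_zero {a h q : ℕ} (hq : 2 ≤ q) (hc : ¬ Nat.Coprime q (a ^ 2 + 1)) : Nrow a h q = 0 := by
  unfold Nrow
  rw [card_eq_zero, filter_eq_empty_iff]
  intro s hs hprime
  rw [mem_Ioc] at hs
  obtain ⟨p, hp, hpq, hpa⟩ := Nat.Prime.not_coprime_iff_dvd.1 hc
  have hd : p ∣ (a + s * q) ^ 2 + 1 := by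
    have : (a + s * q) ^ 2 + 1 = (a ^ 2 + 1) + q * (s * (2 * a + s * q)) := by ring
    rw [this]
    exact hpa.add (hpq.mul_right _)
  have heq := (Nat.prime_dvd_prime_iff_eq hp hprime).1 hd
  have h1 : p ≤ q := Nat.le_of_dvd (by omega) hpq
  have h2 : q ≤ a + s * q := by nlinarith
  nlinarith

lemma col_zero {a T s : ℕ} (hs : 0 < s) (hc : ¬ Nat.Coprime s (a ^ 2 + 1)) : Ccol a T s = 0 := by
  unfold Ccol
  rw [card_eq_zero, filter_eq_empty_iff]
  rintro q hq ⟨-, hprime⟩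
  rw [mem_Ioc] at hq
  obtain ⟨p, hp, hps, hpa⟩ := Nat.Prime.not_coprime_iff_dvd.1 hc
  have hd : p ∣ (a + s * q) ^ 2 + 1 := by
    have : (a + s * q) ^ 2 + 1 = (a ^ 2 + 1) + s * (q * (2 * a + s * q)) := by ring
    rw [this]
    exact hpa.add (hps.mul_right _)
  have heq := (Nat.prime_dvd_prime_iff_eq hp hprime).1 hd
  have h1 : p ≤ s := Nat.le_of_dvd hs hps
  have h2 : s ≤ a + s * q := by nlinarith
  nlinarith

lemma row_eq {a h q : ℕ} (ha : 0 < a) (haq : a < q) (hnp : ¬ (a ^ 2 + 1).Prime) :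
    P1 ((a + h * q : ℕ) : ℝ) q a = Nrow a h q := by
  unfold P1 Nrow
  rw [Nat.floor_natCast]
  have hq : 0 < q := by omega
  have himg : (Ioc 0 (a + h * q)).filter (fun n => n ≡ a [MOD q] ∧ (n ^ 2 + 1).Prime) =
      ((Ioc 0 h).filter fun s => ((a + s * q) ^ 2 + 1).Prime).image fun s => a + s * q := by
    ext n
    rw [mem_filter, mem_image, mem_Ioc]
    constructor
    · rintro ⟨⟨h0, hn⟩, hmod, hpr⟩
      have hge : a ≤ n := by
        by_contra hlt
        push Not at hlt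
        have h1 : n % q = a % q := hmod
        rw [Nat.mod_eq_of_lt haq, Nat.mod_eq_of_lt (by omega)] at h1
        omega
      have hd : q ∣ n - a := (Nat.modEq_iff_dvd' hge).1 hmod.symm
      obtain ⟨s, hs⟩ := hd
      have hn' : n = a + s * q := by rw [mul_comm]; omega
      refine ⟨s, ?_, hn'.symm⟩
      rw [mem_filter, mem_Ioc]
      refine ⟨⟨?_, ?_⟩, by rw [← hn']; exact hpr⟩
      · rcases Nat.eq_zero_or_pos s with rfl | h
        · rw [zero_mul, add_zero] at hn'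
          rw [hn'] at hpr
          exact absurd hpr hnp
        · exact h
      · rw [hn'] at hn
        exact Nat.le_of_mul_le_mul_right (by omega : s * q ≤ h * q) hq
    · rintro ⟨s, hs, rfl⟩
      rw [mem_filter, mem_Ioc] at hs
      refine ⟨⟨by omega, ?_⟩, ?_, hs.2⟩
      · have := Nat.mul_le_mul_right q hs.1.2
        omega
      · show (a + s * q) % q = a % q
        exact Nat.add_mul_mod_self_right a s q
  rw [himg, card_image_of_injective]
  intro s t hst
  have : s * q = t * q := by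
    have : a + s * q = a + t * q := hst
    omega
  exact Nat.eq_of_mul_eq_mul_right hq this

lemma col_eq {a T s : ℕ} (ha : 2 ∣ a) (hs : 0 < s) :
    P1 ((a + s * (2 * T) : ℕ) : ℝ) (2 * s) a = P1 ((a + s * T : ℕ) : ℝ) (2 * s) a +
      Ccol a T s := by
  unfold P1 Ccol
  rw [Nat.floor_natCast, Nat.floor_natCast]
  have hle : a + s * T ≤ a + s * (2 * T) := by
    have : s * T ≤ s * (2 * T) := Nat.mul_le_mul_left s (by omega)
    omega
  have hsplit : (Ioc 0 (a + s * (2 * T))).filter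
      (fun n => n ≡ a [MOD 2 * s] ∧ (n ^ 2 + 1).Prime) =
      (Ioc 0 (a + s * T)).filter (fun n => n ≡ a [MOD 2 * s] ∧ (n ^ 2 + 1).Prime) ∪
      ((Ioc T (2 * T)).filter fun q => 2 ∣ q ∧ ((a + s * q) ^ 2 + 1).Prime).image
        fun q => a + s * q := by
    ext n
    rw [mem_union, mem_filter, mem_filter, mem_image, mem_Ioc, mem_Ioc]
    constructor
    · rintro ⟨⟨h0, hn⟩, hmod, hpr⟩
      rcases Nat.lt_or_ge (a + s * T) n with h1 | h1
      · right
        have hge : a ≤ n := by omega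
        have hd : 2 * s ∣ n - a := (Nat.modEq_iff_dvd' hge).1 hmod.symm
        obtain ⟨j, hj⟩ := hd
        have hn' : n = a + s * (2 * j) := by
          have : s * (2 * j) = 2 * s * j := by ring
          omega
        refine ⟨2 * j, ?_, hn'.symm⟩
        rw [mem_filter, mem_Ioc]
        refine ⟨⟨?_, ?_⟩, dvd_mul_right _ _, by rw [← hn']; exact hpr⟩
        · rw [hn'] at h1
          exact Nat.lt_of_mul_lt_mul_left (by omega : s * T < s * (2 * j))
        · rw [hn'] at hn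
          exact Nat.le_of_mul_le_mul_left (by omega : s * (2 * j) ≤ s * (2 * T)) hs
      · left
        exact ⟨⟨h0, h1⟩, hmod, hpr⟩
    · rintro (⟨⟨h0, hn⟩, h⟩ | ⟨q, hq, rfl⟩)
      · exact ⟨⟨h0, hn.trans hle⟩, h⟩
      · rw [mem_filter, mem_Ioc] at hq
        obtain ⟨⟨h1, h2⟩, ⟨j, rfl⟩, hpr⟩ := hq
        refine ⟨⟨?_, ?_⟩, ?_, hpr⟩
        · have : 0 < s * (2 * j) := Nat.mul_pos hs (by omega)
          omega
        · have := Nat.mul_le_mul_left s h2
          omega
        · show (a + s * (2 * j)) % (2 * s) = a % (2 * s)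
          have : a + s * (2 * j) = a + 2 * s * j := by ring
          rw [this]
          exact Nat.add_mul_mod_self_left a (2 * s) j
  rw [hsplit, card_union_of_disjoint, card_image_of_injective]
  · intro q q' hqq
    have : s * q = s * q' := by
      have : a + s * q = a + s * q' := hqq
      omega
    exact Nat.eq_of_mul_eq_mul_left hs this
  · rw [disjoint_left]
    intro n hn hn'
    rw [mem_image] at hn'
    obtain ⟨q, hq, rfl⟩ := hn'
    rw [mem_filter, mem_Ioc] at hq hn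
    have : s * T < s * q := Nat.mul_lt_mul_of_pos_left hq.1.1 hs
    omega

/-- the large prime factors of `a ^ 2 + 1` -/
def BB (a z : ℕ) : Finset ℕ := (a ^ 2 + 1).primeFactors.filter fun p => z < p

lemma coprime_le {a z : ℕ} (hP : PP z ∣ a ^ 2 + 1) (I : Finset ℕ) [DecidablePred (Fr z)] :
    (I.filter fun n => Nat.Coprime n (a ^ 2 + 1)).card ≤ (I.filter (Fr z)).card := by
  refine card_le_card fun n hn => ?_
  rw [mem_filter] at hn ⊢
  refine ⟨hn.1, fun p hp h4 hpz hd => ?_⟩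
  have h1 : p ∣ a ^ 2 + 1 := (dvd_PP hp h4 hpz).trans hP
  have h2 := Nat.dvd_gcd hd h1
  rw [hn.2] at h2
  exact hp.one_lt.ne' (Nat.dvd_one.1 h2)

lemma le_coprime {a z : ℕ} (ha : 2 ∣ a) (I : Finset ℕ) [DecidablePred (Fr z)] :
    (I.filter (Fr z)).card ≤ (I.filter fun n => Nat.Coprime n (a ^ 2 + 1)).card +
      ∑ p ∈ BB a z, (I.filter fun n => p ∣ n).card := by
  have hsub : I.filter (Fr z) ⊆ (I.filter fun n => Nat.Coprime n (a ^ 2 + 1)) ∪
      (BB a z).biUnion fun p => I.filter fun n => p ∣ n := by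
    intro n hn
    rw [mem_filter] at hn
    rw [mem_union, mem_filter, mem_biUnion]
    by_cases hc : Nat.Coprime n (a ^ 2 + 1)
    · exact Or.inl ⟨hn.1, hc⟩
    · right
      obtain ⟨p, hp, hpn, hpa⟩ := Nat.Prime.not_coprime_iff_dvd.1 hc
      have h2 : p ≠ 2 := by
        rintro rfl
        obtain ⟨b, rfl⟩ := ha
        have : (2 * b) ^ 2 + 1 = 2 * (2 * b ^ 2) + 1 := by ring
        rw [this] at hpa
        omega
      have h4 := mod_four_of_dvd hp h2 hpa
      refine ⟨p, ?_, mem_filter.2 ⟨hn.1, hpn⟩⟩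
      unfold BB
      rw [mem_filter, Nat.mem_primeFactors]
      refine ⟨⟨hp, hpa, by positivity⟩, ?_⟩
      by_contra hle
      push Not at hle
      exact hn.2 p hp h4 hle hpn
  refine (card_le_card hsub).trans ((card_union_le _ _).trans ?_)
  exact Nat.add_le_add_left card_biUnion_le _

lemma card_dvd_Ioc (A B p : ℕ) (hp : 0 < p) (hAB : A ≤ B) :
    ((Ioc A B).filter fun n => p ∣ n).card ≤ (B - A) / p + 1 := by
  have h1 := Nat.Ioc_filter_dvd_card_eq_div B p
  have h2 := Nat.Ioc_filter_dvd_card_eq_div A p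
  have h3 : (Ioc A B).filter (fun n => p ∣ n) =
      (Ioc 0 B).filter (fun n => p ∣ n) \ (Ioc 0 A).filter (fun n => p ∣ n) := by
    ext n
    rw [Finset.mem_sdiff, mem_filter, mem_filter, mem_filter, mem_Ioc, mem_Ioc, mem_Ioc]
    constructor
    · rintro ⟨⟨h4, h5⟩, h6⟩
      exact ⟨⟨⟨by omega, h5⟩, h6⟩, fun h => by omega⟩
    · rintro ⟨⟨⟨h4, h5⟩, h6⟩, h7⟩
      refine ⟨⟨?_, h5⟩, h6⟩
      by_contra hle
      exact h7 ⟨⟨h4, by omega⟩, h6⟩
  have h4 : (Ioc 0 A).filter (fun n => p ∣ n) ⊆ (Ioc 0 B).filter (fun n => p ∣ n) :=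
    filter_subset_filter _ (Ioc_subset_Ioc_right hAB)
  rw [h3, card_sdiff_of_subset h4, h1, h2]
  have h5 : B / p ≤ (B - A) / p + A / p + 1 := by
    have h6 : B < ((B - A) / p + A / p + 2) * p := by
      have h7 := Nat.lt_div_mul_add (a := B - A) (b := p) hp
      have h8 := Nat.lt_div_mul_add (a := A) (b := p) hp
      have h9 : ((B - A) / p + A / p + 2) * p = (B - A) / p * p + p + (A / p * p + p) := by ring
      omega
    have := (Nat.div_lt_iff_lt_mul hp).2 h6
    omega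
  have h6 := Nat.zero_le ((B - A) / p)
  omega

/-- rows with a possible prime -/
def QQ (a T : ℕ) : Finset ℕ :=
  (Ioc T (2 * T)).filter fun q => 2 ∣ q ∧ Nat.Coprime q (a ^ 2 + 1)

/-- columns with a possible prime -/
def SS (a h : ℕ) : Finset ℕ := (Ioc 0 h).filter fun s => Nat.Coprime s (a ^ 2 + 1)

lemma card_QQ {a T : ℕ} (ha : 2 ∣ a) :
    (QQ a (2 * T)).card = ((Ioc T (2 * T)).filter fun n => Nat.Coprime n (a ^ 2 + 1)).card := by
  unfold QQ
  have hodd : Nat.Coprime 2 (a ^ 2 + 1) := by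
    obtain ⟨b, rfl⟩ := ha
    rw [Nat.coprime_two_left, Nat.odd_iff]
    have : (2 * b) ^ 2 + 1 = 2 * (2 * b ^ 2) + 1 := by ring
    rw [this]
    omega
  have himg : (Ioc (2 * T) (2 * (2 * T))).filter
      (fun q => 2 ∣ q ∧ Nat.Coprime q (a ^ 2 + 1)) =
      ((Ioc T (2 * T)).filter fun n => Nat.Coprime n (a ^ 2 + 1)).image fun j => 2 * j := by
    ext q
    rw [mem_filter, mem_image, mem_Ioc]
    constructor
    · rintro ⟨⟨h1, h2⟩, ⟨j, rfl⟩, hc⟩
      refine ⟨j, ?_, rfl⟩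
      rw [mem_filter, mem_Ioc]
      exact ⟨⟨by omega, by omega⟩, Nat.Coprime.coprime_mul_left hc⟩
    · rintro ⟨j, hj, rfl⟩
      rw [mem_filter, mem_Ioc] at hj
      exact ⟨⟨by omega, by omega⟩, dvd_mul_right _ _, Nat.Coprime.mul_left hodd hj.2⟩
  rw [himg, card_image_of_injective]
  intro x y hxy
  have : 2 * x = 2 * y := hxy
  omega

open Classical in
lemma card_Fr_Ioc {A B z : ℕ} (h : A ≤ B) :
    ((Ioc A B).filter (Fr z)).card + Sc A z = Sc B z := by
  unfold Sc
  have h1 : (Ioc 0 B).filter (Fr z) = (Ioc A B).filter (Fr z) ∪ (Ioc 0 A).filter (Fr z) := by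
    rw [← filter_union]
    congr 1
    ext n
    simp only [mem_union, mem_Ioc]
    omega
  have h2 : Disjoint ((Ioc A B).filter (Fr z)) ((Ioc 0 A).filter (Fr z)) := by
    rw [disjoint_left]
    intro n hn hn'
    rw [mem_filter, mem_Ioc] at hn hn'
    omega
  have h3 := card_union_of_disjoint h2
  rw [← h1] at h3
  exact h3.symm

lemma sum_rows {a h T : ℕ} (hT : 1 ≤ T) :
    ∑ q ∈ (Ioc T (2 * T)).filter (fun q => 2 ∣ q), Nrow a h q = ∑ q ∈ QQ a T, Nrow a h q := by
  symm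
  refine sum_subset ?_ ?_
  · intro q hq
    unfold QQ at hq
    rw [mem_filter] at hq ⊢
    exact ⟨hq.1, hq.2.1⟩
  · intro q hq hq'
    rw [mem_filter, mem_Ioc] at hq
    unfold QQ at hq'
    rw [mem_filter, mem_Ioc, not_and, not_and] at hq'
    exact row_zero (by omega) (hq' hq.1 hq.2)

lemma sum_cols {a h T : ℕ} : ∑ s ∈ Ioc 0 h, Ccol a T s = ∑ s ∈ SS a h, Ccol a T s := by
  symm
  refine sum_subset (filter_subset _ _) ?_
  intro s hs hs'
  unfold SS at hs'
  rw [mem_filter, not_and] at hs'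
  exact col_zero (mem_Ioc.1 hs).1 (hs' hs)

lemma rows_eq_cols {a h T : ℕ} (hT : 1 ≤ T) :
    ∑ q ∈ QQ a T, Nrow a h q = ∑ s ∈ SS a h, Ccol a T s := by
  rw [← sum_rows hT, double_count, sum_cols]

end Pool.Agent.MP484c84AP
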