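import Pool.Agent.Lib.MP484c84AP.Buch

/-!
# The sieve density of integers without small prime factors `1 mod 4` must oscillate
-/

open Finset Filter Topology MeasureTheory

namespace Pool.Agent.MP484c84AP

lemma step_lower {x1 x2 y1 y2 : ℝ} {w z : ℕ} (hx : 0 < x1) (hx2 : x1 ≤ x2) (hwz : w ≤ z)
    (hy2 : y1 ≤ y2)
    (h1 : ∀ p ∈ Ioc w z, x1 / (p : ℝ) ≤ y1) (h2 : ∀ p ∈ Ioc w z, y2 ≤ x2 / (p : ℝ)) :
    R w z * D y1 y2 z ≤ D x1 x2 w - D x1 x2 z := by
  rw [D_buchstab hx hx2 hwz, add_sub_cancel_left]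
  unfold R
  rw [sum_mul]
  refine sum_le_sum fun p hp => ?_
  rw [mem_filter] at hp
  have hp0 : (0 : ℝ) < p := by exact_mod_cast hp.2.1.pos
  refine mul_le_mul_of_nonneg_left ?_ (by positivity)
  have hx1p : 0 < x1 / (p : ℝ) := by positivity
  have h12 : x1 / (p : ℝ) ≤ x2 / p := div_le_div_of_nonneg_right hx2 hp0.le
  have h3 : p - 1 ≤ z := by
    have := (mem_Ioc.1 hp.1).2
    omega
  exact (D_window hx1p (h1 p hp.1) hy2 (h2 p hp.1) z).trans (D_anti_level hx1p h12 h3)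

lemma step_upper {x1 x2 y1 y2 : ℝ} {w z : ℕ} (hx : 0 < x1) (hx2 : x1 ≤ x2) (hwz : w ≤ z)
    (hy : 0 < y1)
    (h1 : ∀ p ∈ Ioc w z, y1 ≤ x1 / (p : ℝ)) (h2 : ∀ p ∈ Ioc w z, x2 / (p : ℝ) ≤ y2) :
    D x1 x2 w - D x1 x2 z ≤ R w z * D y1 y2 w := by
  rw [D_buchstab hx hx2 hwz, add_sub_cancel_left]
  unfold R
  rw [sum_mul]
  refine sum_le_sum fun p hp => ?_
  rw [mem_filter] at hp
  have hp0 : (0 : ℝ) < p := by exact_mod_cast hp.2.1.pos
  refine mul_le_mul_of_nonneg_left ?_ (by positivity)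
  have h12 : x1 / (p : ℝ) ≤ x2 / p := div_le_div_of_nonneg_right hx2 hp0.le
  have h3 : w ≤ p - 1 := by
    have := (mem_Ioc.1 hp.1).1
    omega
  have hx1p : 0 < x1 / (p : ℝ) := by positivity
  exact (D_anti_level hx1p h12 h3).trans (D_window hy (h1 p hp.1) h12 (h2 p hp.1) w)

/-- normalised logarithmic count -/
noncomputable def F (α β z : ℝ) : ℝ :=
  D (z ^ α) (z ^ β) ⌊z⌋₊ / (V ⌊z⌋₊ * Real.log z)

lemma tendsto_exp_slope : Tendsto (fun u : ℝ => (Real.exp u - 1) / u) (𝓝[>] 0) (𝓝 1) := by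
  have h := (Real.hasDerivAt_exp 0).tendsto_slope_zero_right
  rw [Real.exp_zero] at h
  refine h.congr fun u => ?_
  rw [zero_add, smul_eq_mul]
  ring

lemma tendsto_exp_slope' : Tendsto (fun u : ℝ => (1 - Real.exp (-u)) / u) (𝓝[>] 0) (𝓝 1) := by
  have h1 : Tendsto (fun u : ℝ => Real.exp (-u)) (𝓝[>] 0) (𝓝 1) := by
    have h2 : Continuous fun u : ℝ => Real.exp (-u) := by fun_prop
    have h3 := h2.tendsto 0
    rw [neg_zero, Real.exp_zero] at h3
    exact h3.mono_left nhdsWithin_le_nhds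
  have h2 := h1.mul tendsto_exp_slope
  rw [mul_one] at h2
  refine h2.congr' ?_
  filter_upwards [self_mem_nhdsWithin] with u hu
  have hu' : u ≠ 0 := ne_of_gt hu
  have h3 : Real.exp (-u) * Real.exp u = 1 := by rw [← Real.exp_add]; simp
  field_simp
  linear_combination h3

lemma logz_pos {z : ℝ} (hz : 2 ≤ z) : 0 < Real.log z := Real.log_pos (by linarith)

/-- the upper half of the induction step -/
lemma upper_half {α β a : ℝ} (ha : 0 < a) (ha1 : a < 1) (hαβ : α < β)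
    (h1 : Tendsto (F (α + a) (β + 1)) atTop (𝓝 ((β + 1) - (α + a))))
    (h2 : Tendsto (F ((α + a) / a) ((β + 1) / a)) atTop (𝓝 ((β + 1) / a - (α + a) / a))) :
    ∃ g : ℝ → ℝ, Tendsto g atTop (𝓝 ((β + 1 - α - a) * (a ^ (-(1 / 2) : ℝ) - 1) /
      (-Real.log a / 2))) ∧ ∀ᶠ z in atTop, F α β z ≤ g z := by
  have hu : 0 < -Real.log a / 2 := by
    have := Real.log_neg ha ha1
    linarith
  refine ⟨fun z => (F ((α + a) / a) ((β + 1) / a) (z ^ a) * (V ⌊z ^ a⌋₊ / V ⌊z⌋₊ * a) -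
    F (α + a) (β + 1) z) / R ⌊z ^ a⌋₊ ⌊z⌋₊, ?_, ?_⟩
  · have h3 := ((h2.comp (tendsto_rpow ha)).mul ((tendsto_V ha ha1).mul_const a)).sub h1
    have h4 := h3.div (tendsto_R ha ha1) hu.ne'
    have h5 : ((β + 1) / a - (α + a) / a) * (a ^ (-(1 / 2) : ℝ) * a) - ((β + 1) - (α + a)) =
        (β + 1 - α - a) * (a ^ (-(1 / 2) : ℝ) - 1) := by
      field_simp
      ring
    rw [h5] at h4
    exact h4
  · have e1 := (tendsto_rpow ha).eventually (eventually_ge_atTop (2 : ℝ))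
    have e2 : ∀ᶠ z : ℝ in atTop, 0 < R ⌊z ^ a⌋₊ ⌊z⌋₊ :=
      (tendsto_R ha ha1).eventually (lt_mem_nhds hu)
    filter_upwards [eventually_ge_atTop (2 : ℝ), e1, e2] with z hz hz2 hRz
    have hz0 : (0 : ℝ) < z := by linarith
    have hl := logz_pos hz
    have hle : z ^ a ≤ z := by
      calc z ^ a ≤ z ^ (1 : ℝ) := Real.rpow_le_rpow_of_exponent_le (by linarith) ha1.le
        _ = z := Real.rpow_one z
    have hwz : ⌊z ^ a⌋₊ ≤ ⌊z⌋₊ := Nat.floor_le_floor hle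
    have hkey := step_lower (x1 := z ^ (α + a)) (x2 := z ^ (β + 1)) (y1 := z ^ α)
      (y2 := z ^ β) (w := ⌊z ^ a⌋₊) (z := ⌊z⌋₊) (by positivity)
      (Real.rpow_le_rpow_of_exponent_le (by linarith) (by linarith)) hwz
      (Real.rpow_le_rpow_of_exponent_le (by linarith) hαβ.le)
      (by
        intro p hp
        rw [mem_Ioc] at hp
        have hp1 : z ^ a < p := (Nat.floor_lt (by positivity)).1 hp.1
        have hp0 : (0 : ℝ) < p := by linarith
        rw [div_le_iff₀ hp0, Real.rpow_add hz0]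
        exact mul_le_mul_of_nonneg_left hp1.le (by positivity))
      (by
        intro p hp
        rw [mem_Ioc] at hp
        have hp1 : z ^ a < p := (Nat.floor_lt (by positivity)).1 hp.1
        have hp0 : (0 : ℝ) < p := by linarith
        have hp2 : (p : ℝ) ≤ z := (Nat.le_floor_iff hz0.le).1 hp.2
        rw [le_div_iff₀ hp0, Real.rpow_add hz0, Real.rpow_one]
        exact mul_le_mul_of_nonneg_left hp2 (by positivity))
    have hV := V_pos ⌊z⌋₊
    have hVa := V_pos ⌊z ^ a⌋₊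
    have hla : Real.log (z ^ a) = a * Real.log z := Real.log_rpow hz0 a
    have e3 : (z ^ a) ^ ((α + a) / a) = z ^ (α + a) := by
      rw [← Real.rpow_mul hz0.le]
      congr 1
      field_simp
    have e4 : (z ^ a) ^ ((β + 1) / a) = z ^ (β + 1) := by
      rw [← Real.rpow_mul hz0.le]
      congr 1
      field_simp
    rw [le_div_iff₀ hRz]
    unfold F
    rw [e3, e4, hla]
    have h6 : D (z ^ (α + a)) (z ^ (β + 1)) ⌊z ^ a⌋₊ / (V ⌊z ^ a⌋₊ * (a * Real.log z)) *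
        (V ⌊z ^ a⌋₊ / V ⌊z⌋₊ * a) - D (z ^ (α + a)) (z ^ (β + 1)) ⌊z⌋₊ /
        (V ⌊z⌋₊ * Real.log z) = (D (z ^ (α + a)) (z ^ (β + 1)) ⌊z ^ a⌋₊ -
        D (z ^ (α + a)) (z ^ (β + 1)) ⌊z⌋₊) / (V ⌊z⌋₊ * Real.log z) := by
      field_simp
    rw [h6, div_mul_eq_mul_div]
    refine div_le_div_of_nonneg_right ?_ (by positivity)
    rw [mul_comm]
    exact hkey

/-- the lower half of the induction step -/
lemma lower_half {α β a : ℝ} (ha : 0 < a) (ha1 : a < 1) (hαβ : α + 1 / a < β + 1)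
    (h1 : Tendsto (F (α + 1 / a) (β + 1)) atTop (𝓝 ((β + 1) - (α + 1 / a))))
    (h2 : Tendsto (F (a * α + 1) (a * (β + 1))) atTop (𝓝 (a * (β + 1) - (a * α + 1)))) :
    ∃ g : ℝ → ℝ, Tendsto g atTop (𝓝 ((β + 1 - α - 1 / a) * (1 - a ^ (1 / 2 : ℝ)) /
      (-Real.log a / 2))) ∧ ∀ᶠ z in atTop, g z ≤ F α β z := by
  have hu : 0 < -Real.log a / 2 := by
    have := Real.log_neg ha ha1
    linarith
  have hb : 0 < 1 / a := by positivity
  have hpow : ∀ z : ℝ, 0 ≤ z → (z ^ (1 / a)) ^ a = z := by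
    intro z hz
    rw [← Real.rpow_mul hz, one_div_mul_cancel ha.ne', Real.rpow_one]
  have hR' : Tendsto (fun z : ℝ => R ⌊z⌋₊ ⌊z ^ (1 / a)⌋₊) atTop (𝓝 (-Real.log a / 2)) := by
    refine ((tendsto_R ha ha1).comp (tendsto_rpow hb)).congr' ?_
    filter_upwards [eventually_ge_atTop (0 : ℝ)] with z hz
    simp only [Function.comp]
    rw [hpow z hz]
  have hV' : Tendsto (fun z : ℝ => V ⌊z ^ (1 / a)⌋₊ / V ⌊z⌋₊) atTop (𝓝 (a ^ (1 / 2 : ℝ))) := by
    have h3 := ((tendsto_V ha ha1).comp (tendsto_rpow hb)).inv₀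
      (Real.rpow_pos_of_pos ha _).ne'
    rw [← Real.rpow_neg ha.le, neg_neg] at h3
    refine h3.congr' ?_
    filter_upwards [eventually_ge_atTop (0 : ℝ)] with z hz
    simp only [Function.comp]
    rw [hpow z hz, inv_div]
  refine ⟨fun z => (F (α + 1 / a) (β + 1) z - F (a * α + 1) (a * (β + 1)) (z ^ (1 / a)) *
    (V ⌊z ^ (1 / a)⌋₊ / V ⌊z⌋₊ * (1 / a))) / R ⌊z⌋₊ ⌊z ^ (1 / a)⌋₊, ?_, ?_⟩
  · have h3 := (h1.sub ((h2.comp (tendsto_rpow hb)).mul (hV'.mul_const (1 / a)))).div hR' hu.ne'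
    have h5 : (β + 1) - (α + 1 / a) - (a * (β + 1) - (a * α + 1)) * (a ^ (1 / 2 : ℝ) * (1 / a)) =
        (β + 1 - α - 1 / a) * (1 - a ^ (1 / 2 : ℝ)) := by
      field_simp
      ring
    rw [h5] at h3
    exact h3
  · have e2 : ∀ᶠ z : ℝ in atTop, 0 < R ⌊z⌋₊ ⌊z ^ (1 / a)⌋₊ :=
      hR'.eventually (lt_mem_nhds hu)
    filter_upwards [eventually_ge_atTop (2 : ℝ), e2] with z hz hRz
    have hz0 : (0 : ℝ) < z := by linarith
    have hl := logz_pos hz
    have hb1 : 1 ≤ 1 / a := by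
      rw [le_div_iff₀ ha]
      linarith
    have hle : z ≤ z ^ (1 / a) := by
      calc z = z ^ (1 : ℝ) := (Real.rpow_one z).symm
        _ ≤ z ^ (1 / a) := Real.rpow_le_rpow_of_exponent_le (by linarith) hb1
    have hwz : ⌊z⌋₊ ≤ ⌊z ^ (1 / a)⌋₊ := Nat.floor_le_floor hle
    have hkey := step_upper (x1 := z ^ (α + 1 / a)) (x2 := z ^ (β + 1)) (y1 := z ^ α)
      (y2 := z ^ β) (w := ⌊z⌋₊) (z := ⌊z ^ (1 / a)⌋₊) (by positivity)
      (Real.rpow_le_rpow_of_exponent_le (by linarith) hαβ.le) hwz (by positivity)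
      (by
        intro p hp
        rw [mem_Ioc] at hp
        have hp1 : z < p := (Nat.floor_lt hz0.le).1 hp.1
        have hp0 : (0 : ℝ) < p := by linarith
        have hp2 : (p : ℝ) ≤ z ^ (1 / a) := (Nat.le_floor_iff (by positivity)).1 hp.2
        rw [le_div_iff₀ hp0, Real.rpow_add hz0]
        exact mul_le_mul_of_nonneg_left hp2 (by positivity))
      (by
        intro p hp
        rw [mem_Ioc] at hp
        have hp1 : z < p := (Nat.floor_lt hz0.le).1 hp.1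
        have hp0 : (0 : ℝ) < p := by linarith
        rw [div_le_iff₀ hp0, Real.rpow_add hz0, Real.rpow_one]
        exact mul_le_mul_of_nonneg_left hp1.le (by positivity))
    have hV := V_pos ⌊z⌋₊
    have hVa := V_pos ⌊z ^ (1 / a)⌋₊
    have hla : Real.log (z ^ (1 / a)) = 1 / a * Real.log z := Real.log_rpow hz0 _
    have e3 : (z ^ (1 / a)) ^ (a * α + 1) = z ^ (α + 1 / a) := by
      rw [← Real.rpow_mul hz0.le]
      congr 1
      field_simp
    have e4 : (z ^ (1 / a)) ^ (a * (β + 1)) = z ^ (β + 1) := by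
      rw [← Real.rpow_mul hz0.le]
      congr 1
      field_simp
    rw [div_le_iff₀ hRz]
    unfold F
    rw [e3, e4, hla]
    have h6 : D (z ^ (α + 1 / a)) (z ^ (β + 1)) ⌊z⌋₊ / (V ⌊z⌋₊ * Real.log z) -
        D (z ^ (α + 1 / a)) (z ^ (β + 1)) ⌊z ^ (1 / a)⌋₊ /
          (V ⌊z ^ (1 / a)⌋₊ * (1 / a * Real.log z)) * (V ⌊z ^ (1 / a)⌋₊ / V ⌊z⌋₊ * (1 / a)) =
        (D (z ^ (α + 1 / a)) (z ^ (β + 1)) ⌊z⌋₊ -
        D (z ^ (α + 1 / a)) (z ^ (β + 1)) ⌊z ^ (1 / a)⌋₊) / (V ⌊z⌋₊ * Real.log z) := by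
      field_simp
    rw [h6, div_mul_eq_mul_div]
    refine div_le_div_of_nonneg_right ?_ (by positivity)
    rw [mul_comm (D (z ^ α) (z ^ β) ⌊z⌋₊)]
    exact hkey

/-- the induction step: exponents go down by one -/
lemma step {Λ M : ℝ}
    (h : ∀ α β : ℝ, Λ < α → α < β → β < M → Tendsto (F α β) atTop (𝓝 (β - α)))
    {α β : ℝ} (h1 : Λ - 1 < α) (hαβ : α < β) (hα : 0 < α) (hβ : β + 1 < M) :
    Tendsto (F α β) atTop (𝓝 (β - α)) := by
  have hexp2 : Tendsto (fun u : ℝ => Real.exp (-(2 * u))) (𝓝[>] 0) (𝓝 1) := by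
    have h2 : Continuous fun u : ℝ => Real.exp (-(2 * u)) := by fun_prop
    have h3 := h2.tendsto 0
    rw [mul_zero, neg_zero, Real.exp_zero] at h3
    exact h3.mono_left nhdsWithin_le_nhds
  have hexp3 : Tendsto (fun u : ℝ => Real.exp (2 * u)) (𝓝[>] 0) (𝓝 1) := by
    have h2 : Continuous fun u : ℝ => Real.exp (2 * u) := by fun_prop
    have h3 := h2.tendsto 0
    rw [mul_zero, Real.exp_zero] at h3
    exact h3.mono_left nhdsWithin_le_nhds
  have hpos : ∀ᶠ u : ℝ in 𝓝[>] 0, 0 < u := self_mem_nhdsWithin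
  have hlogexp : ∀ u : ℝ, -Real.log (Real.exp (-(2 * u))) / 2 = u := by
    intro u
    rw [Real.log_exp]
    ring
  refine tendsto_order.2 ⟨fun l hl => ?_, fun r hr => ?_⟩
  · have hL : Tendsto (fun u : ℝ => (β + 1 - α - Real.exp (2 * u)) *
        ((1 - Real.exp (-u)) / u)) (𝓝[>] 0) (𝓝 ((β + 1 - α - 1) * 1)) :=
      (hexp3.const_sub _).mul tendsto_exp_slope'
    have hl' : l < (β + 1 - α - 1) * 1 := by linarith
    have c1 := hL.eventually (lt_mem_nhds hl')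
    have c2 : ∀ᶠ u : ℝ in 𝓝[>] 0, Λ < Real.exp (-(2 * u)) * α + 1 := by
      have h3 : Tendsto (fun u : ℝ => Real.exp (-(2 * u)) * α + 1) (𝓝[>] 0) (𝓝 (1 * α + 1)) :=
        (hexp2.mul_const α).add_const 1
      exact h3.eventually (lt_mem_nhds (by linarith))
    have c3 : ∀ᶠ u : ℝ in 𝓝[>] 0, α + Real.exp (2 * u) < β + 1 := by
      have h3 : Tendsto (fun u : ℝ => α + Real.exp (2 * u)) (𝓝[>] 0) (𝓝 (α + 1)) :=
        hexp3.const_add α
      exact h3.eventually (gt_mem_nhds (by linarith))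
    obtain ⟨u, hu, c1, c2, c3⟩ := (hpos.and (c1.and (c2.and c3))).exists
    set a := Real.exp (-(2 * u)) with ha_def
    have ha : 0 < a := Real.exp_pos _
    have ha1 : a < 1 := by
      rw [ha_def, Real.exp_lt_one_iff]
      linarith
    have hinv : 1 / a = Real.exp (2 * u) := by
      rw [ha_def, Real.exp_neg, one_div, inv_inv]
    have hsq : a ^ (1 / 2 : ℝ) = Real.exp (-u) := by
      rw [ha_def, ← Real.exp_mul]
      congr 1
      ring
    have hb1 : 1 < 1 / a := by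
      rw [lt_div_iff₀ ha]
      linarith
    obtain ⟨g, hg, hgF⟩ := lower_half (α := α) (β := β) ha ha1 (by rw [hinv]; exact c3)
      (h _ _ (by linarith) (by rw [hinv]; exact c3) hβ)
      (h _ _ c2 (by
        have : a * α + 1 = a * (α + 1 / a) := by field_simp
        rw [this]
        exact mul_lt_mul_of_pos_left (by rw [hinv]; exact c3) ha) (by
        have : a * (β + 1) ≤ 1 * (β + 1) := mul_le_mul_of_nonneg_right ha1.le (by linarith)
        linarith))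
    rw [hlogexp u, hinv, hsq, mul_div_assoc] at hg
    filter_upwards [hg.eventually (lt_mem_nhds c1), hgF] with z h3 h4
    linarith
  · have hL : Tendsto (fun u : ℝ => (β + 1 - α - Real.exp (-(2 * u))) *
        ((Real.exp u - 1) / u)) (𝓝[>] 0) (𝓝 ((β + 1 - α - 1) * 1)) :=
      (hexp2.const_sub _).mul tendsto_exp_slope
    have hr' : (β + 1 - α - 1) * 1 < r := by linarith
    have c1 := hL.eventually (gt_mem_nhds hr')
    have c2 : ∀ᶠ u : ℝ in 𝓝[>] 0, Λ < α + Real.exp (-(2 * u)) := by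
      have h3 : Tendsto (fun u : ℝ => α + Real.exp (-(2 * u))) (𝓝[>] 0) (𝓝 (α + 1)) :=
        hexp2.const_add α
      exact h3.eventually (lt_mem_nhds (by linarith))
    have c3 : ∀ᶠ u : ℝ in 𝓝[>] 0, (β + 1) * Real.exp (2 * u) < M := by
      have h3 : Tendsto (fun u : ℝ => (β + 1) * Real.exp (2 * u)) (𝓝[>] 0) (𝓝 ((β + 1) * 1)) :=
        hexp3.const_mul (β + 1)
      exact h3.eventually (gt_mem_nhds (by linarith))
    obtain ⟨u, hu, c1, c2, c3⟩ := (hpos.and (c1.and (c2.and c3))).exists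
    set a := Real.exp (-(2 * u)) with ha_def
    have ha : 0 < a := Real.exp_pos _
    have ha1 : a < 1 := by
      rw [ha_def, Real.exp_lt_one_iff]
      linarith
    have hsq : a ^ (-(1 / 2) : ℝ) = Real.exp u := by
      rw [ha_def, ← Real.exp_mul]
      congr 1
      ring
    have hpos2 : 0 < α + a := by linarith
    obtain ⟨g, hg, hgF⟩ := upper_half (α := α) (β := β) ha ha1 hαβ
      (h _ _ c2 (by linarith) hβ)
      (h _ _ (by
        refine c2.trans ?_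
        rw [lt_div_iff₀ ha]
        nlinarith) (div_lt_div_of_pos_right (by linarith) ha) (by
        have hinv : (β + 1) / a = (β + 1) * Real.exp (2 * u) := by
          rw [ha_def, Real.exp_neg, div_inv_eq_mul]
        rw [hinv]
        exact c3))
    rw [hlogexp u, hsq, mul_div_assoc] at hg
    filter_upwards [hg.eventually (gt_mem_nhds c1), hgF] with z h3 h4
    linarith

/-- **Oscillation.** The sifted sets of all levels cannot have asymptotically the density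
`V` at all scales `z ^ α`, `α > Λ`. -/
theorem oscillation (Λ : ℝ) : ∃ M : ℝ, Λ < M ∧
    ¬ ∀ α β : ℝ, Λ < α → α < β → β < M → Tendsto (F α β) atTop (𝓝 (β - α)) := by
  obtain ⟨n, hn⟩ := exists_nat_gt Λ
  refine ⟨n + 1, by linarith, fun h => ?_⟩
  have h0 : ∀ k : ℕ, ∀ α β : ℝ, Λ - k < α → 0 < α → α < β → β < (n : ℝ) + 1 - k →
      Tendsto (F α β) atTop (𝓝 (β - α)) := by
    intro k
    induction k with
    | zero =>
      intro α β h1 _ h3 h4
      exact h α β (by simpa using h1) h3 (by simpa using h4)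
    | succ k ih =>
      intro α β h1 h2 h3 h6
      have ih' : ∀ α β : ℝ, max (Λ - k) 0 < α → α < β → β < (n : ℝ) + 1 - k →
          Tendsto (F α β) atTop (𝓝 (β - α)) :=
        fun α β h4 h5 h7 => ih α β ((le_max_left _ _).trans_lt h4)
          ((le_max_right _ _).trans_lt h4) h5 h7
      push_cast at h1 h6
      refine step ih' ?_ h3 h2 (by linarith)
      rcases le_total (Λ - k) 0 with h4 | h4
      · rw [max_eq_right h4]
        linarith
      · rw [max_eq_left h4]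
        linarith
  have h1 := h0 n (1 / 4) (1 / 2) (by linarith) (by norm_num) (by norm_num) (by linarith)
  have h2 := h0 n (1 / 8) (1 / 4) (by linarith) (by norm_num) (by norm_num) (by linarith)
  -- compare levels `z` and `z ^ 2`
  have h3 := h2.comp (tendsto_rpow (show (0 : ℝ) < 2 by norm_num))
  have hhalf : (0 : ℝ) < 1 / 2 := by norm_num
  have hV : Tendsto (fun z : ℝ => V ⌊z ^ (2 : ℝ)⌋₊ / V ⌊z⌋₊) atTop
      (𝓝 ((1 / 2 : ℝ) ^ (1 / 2 : ℝ))) := by
    have h4 := ((tendsto_V hhalf (by norm_num)).comp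
      (tendsto_rpow (show (0 : ℝ) < 2 by norm_num))).inv₀ (Real.rpow_pos_of_pos hhalf _).ne'
    rw [← Real.rpow_neg hhalf.le, neg_neg] at h4
    refine h4.congr' ?_
    filter_upwards [eventually_ge_atTop (0 : ℝ)] with z hz
    simp only [Function.comp]
    rw [← Real.rpow_mul hz, show (2 : ℝ) * (1 / 2) = 1 by norm_num, Real.rpow_one, inv_div]
  have h5 := h3.mul (hV.mul_const 2)
  have h6 : Tendsto (F (1 / 4) (1 / 2)) atTop
      (𝓝 ((1 / 4 - 1 / 8) * ((1 / 2 : ℝ) ^ (1 / 2 : ℝ) * 2))) := by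
    refine h5.congr' ?_
    filter_upwards [eventually_ge_atTop (2 : ℝ)] with z hz
    have hz0 : (0 : ℝ) < z := by linarith
    have hl := logz_pos hz
    have hV1 := V_pos ⌊z⌋₊
    have hV2 := V_pos ⌊z ^ (2 : ℝ)⌋₊
    simp only [Function.comp, F]
    have e1 : (z ^ (2 : ℝ)) ^ (1 / 8 : ℝ) = z ^ (1 / 4 : ℝ) := by
      rw [← Real.rpow_mul hz0.le]; norm_num
    have e2 : (z ^ (2 : ℝ)) ^ (1 / 4 : ℝ) = z ^ (1 / 2 : ℝ) := by
      rw [← Real.rpow_mul hz0.le]; norm_num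
    have e3 : Real.log (z ^ (2 : ℝ)) = 2 * Real.log z := Real.log_rpow hz0 2
    have e4 : D (z ^ (1 / 4 : ℝ)) (z ^ (1 / 2 : ℝ)) ⌊z ^ (2 : ℝ)⌋₊ =
        D (z ^ (1 / 4 : ℝ)) (z ^ (1 / 2 : ℝ)) ⌊z⌋₊ := by
      unfold D
      refine intervalIntegral.integral_congr fun t ht => ?_
      have hle : z ^ (1 / 4 : ℝ) ≤ z ^ (1 / 2 : ℝ) :=
        Real.rpow_le_rpow_of_exponent_le (by linarith) (by norm_num)
      rw [Set.uIcc_of_le hle] at ht
      have h7 : ⌊t⌋₊ ≤ ⌊z⌋₊ := by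
        refine Nat.floor_le_floor (ht.2.trans ?_)
        calc z ^ (1 / 2 : ℝ) ≤ z ^ (1 : ℝ) :=
              Real.rpow_le_rpow_of_exponent_le (by linarith) (by norm_num)
          _ = z := Real.rpow_one z
      have h8 : ⌊t⌋₊ ≤ ⌊z ^ (2 : ℝ)⌋₊ := by
        refine h7.trans (Nat.floor_le_floor ?_)
        calc z = z ^ (1 : ℝ) := (Real.rpow_one z).symm
          _ ≤ z ^ (2 : ℝ) := Real.rpow_le_rpow_of_exponent_le (by linarith) (by norm_num)
      show (Sc ⌊t⌋₊ ⌊z ^ (2 : ℝ)⌋₊ : ℝ) / t ^ 2 = (Sc ⌊t⌋₊ ⌊z⌋₊ : ℝ) / t ^ 2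
      rw [Sc_eq_of_le h8 h7]
    rw [e1, e2, e3, e4]
    field_simp
  have h7 := tendsto_nhds_unique h1 h6
  have h8 : ((1 / 2 : ℝ) ^ (1 / 2 : ℝ)) = 1 := by linarith
  have h9 : ((1 / 2 : ℝ) ^ (1 / 2 : ℝ)) < 1 := Real.rpow_lt_one (by norm_num) (by norm_num)
    (by norm_num)
  linarith

end Pool.Agent.MP484c84AP
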